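import Pool.Agent.H225.ConfocalId

set_option autoImplicit false
open Real Set

namespace Pool.Agent.H225.Confocal

/-- `ℓ(f) = n·û(f)`. -/
noncomputable def L (n1 n2 f : ℝ) : ℝ := n1*cos f+n2*sin f
/-- `ℓ'(f)`. -/
noncomputable def M (n1 n2 f : ℝ) : ℝ := n2*cos f-n1*sin f

lemma hL (n1 n2 f : ℝ) : HasDerivAt (L n1 n2) (M n1 n2 f) f := by
  have h := ((hasDerivAt_cos f).const_mul n1).add ((hasDerivAt_sin f).const_mul n2)
  refine HasDerivAt.congr_deriv h ?_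
  unfold M; ring

lemma hM (n1 n2 f : ℝ) : HasDerivAt (M n1 n2) (-(L n1 n2 f)) f := by
  have h := ((hasDerivAt_cos f).const_mul n2).sub ((hasDerivAt_sin f).const_mul n1)
  refine HasDerivAt.congr_deriv h ?_
  unfold L; ring

lemma LM_sq (n1 n2 f : ℝ) : (L n1 n2 f)^2+(M n1 n2 f)^2 = n1^2+n2^2 := by
  have h := sin_sq_add_cos_sq f
  unfold L M
  linear_combination (n1^2+n2^2)*h

lemma LM_P (n1 n2 f : ℝ) :
    ((L n1 n2 f)^2-(M n1 n2 f)^2)*sin f*cos f+L n1 n2 f*M n1 n2 f*((cos f)^2-(sin f)^2) = n1*n2 := by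
  have h := sin_sq_add_cos_sq f
  unfold L M
  have h4 : ((sin f)^2+(cos f)^2)^2 = 1 := by rw [h]; norm_num
  linear_combination n1*n2*h4

lemma LM_D (n1 n2 f : ℝ) :
    ((L n1 n2 f)^2-(M n1 n2 f)^2)*((cos f)^2-(sin f)^2)-4*L n1 n2 f*M n1 n2 f*sin f*cos f = n1^2-n2^2 := by
  have h := sin_sq_add_cos_sq f
  unfold L M
  have h4 : ((sin f)^2+(cos f)^2)^2 = 1 := by rw [h]; norm_num
  linear_combination (n1^2-n2^2)*h4

lemma LM_prod (n1 n2 f : ℝ) :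
    L n1 n2 f*M n1 n2 f = n1*n2*((cos f)^2-(sin f)^2)-(n1^2-n2^2)*sin f*cos f := by
  unfold L M; ring

/-- `E` as a function of the true anomaly. -/
noncomputable def E (e n1 n2 f : ℝ) : ℝ := EE e (1-n1^2-n2^2) (L n1 n2 f) (M n1 n2 f) (cos f) (sin f)
noncomputable def E' (e n1 n2 f : ℝ) : ℝ := EEp e (1-n1^2-n2^2) (L n1 n2 f) (M n1 n2 f) (cos f) (sin f)
noncomputable def K (e n1 n2 f : ℝ) : ℝ := KK e (L n1 n2 f) (M n1 n2 f) (cos f) (sin f)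
noncomputable def T (e n1 n2 f : ℝ) : ℝ := T6 e (n1*n2) (n1^2-n2^2) (cos f) (sin f)

lemma hE (e n1 n2 f : ℝ) : HasDerivAt (E e n1 n2) (E' e n1 n2 f) f := by
  have hc := hasDerivAt_cos f
  have hs := hasDerivAt_sin f
  have ha := hL n1 n2 f
  have hb := hM n1 n2 f
  have hQ : HasDerivAt (fun x => 1-(L n1 n2 x)^2) (-(2*L n1 n2 f*M n1 n2 f)) f := by
    refine HasDerivAt.congr_deriv ((ha.pow 2).const_sub 1) ?_
    norm_num
  have hw : HasDerivAt (fun x => 1+e*cos x) (e*(-sin f)) f := (hc.const_mul e).const_add 1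
  have hab : HasDerivAt (fun x => L n1 n2 x*M n1 n2 x)
      (M n1 n2 f*M n1 n2 f+L n1 n2 f*(-(L n1 n2 f))) f := ha.mul hb
  have h2w : HasDerivAt (fun x => 1+2*e*cos x+e^2) (2*e*(-sin f)) f :=
    ((hc.const_mul (2*e)).const_add 1).add_const (e^2)
  have hce : HasDerivAt (fun x => cos x+e) (-sin f) f := hc.add_const e
  have h1 := (hs.mul h2w).mul (hQ.pow 2)
  have h2 := ((hw.mul hce).mul hab).mul hQ
  have h3 := (hs.const_mul (1-n1^2-n2^2)).mul (hw.pow 2)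
  have h := (h1.sub h2).sub h3
  have hfun : E e n1 n2 = (fun x => sin x*(1+2*e*cos x+e^2)*(1-(L n1 n2 x)^2)^2
      -(1+e*cos x)*(cos x+e)*(L n1 n2 x*M n1 n2 x)*(1-(L n1 n2 x)^2)
      -(1-n1^2-n2^2)*sin x*(1+e*cos x)^2) := by
    funext x; rfl
  rw [hfun]
  refine HasDerivAt.congr_deriv h ?_
  unfold E' EEp
  simp only [Nat.cast_ofNat, Nat.add_one_sub_one, pow_one, Pi.pow_apply, Pi.mul_apply]
  ring

lemma dl_eq (n1 n2 f : ℝ) : 1-n1^2-n2^2 = 1-(L n1 n2 f)^2-(M n1 n2 f)^2 := by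
  have := LM_sq n1 n2 f; linarith

lemma fB (e n1 n2 f : ℝ) : sin f*E' e n1 n2 f
    = 3/2*(1-(L n1 n2 f)^2)*T e n1 n2 f+3*cos f*E e n1 n2 f := by
  have h := idB e (L n1 n2 f) (M n1 n2 f) (cos f) (sin f) (sin_sq_add_cos_sq f)
  rw [LM_P, LM_D, ← dl_eq] at h
  exact h

lemma fA (e n1 n2 f : ℝ) : sin f*(1+e*cos f)*E' e n1 n2 f
    = 3*(cos f*(1+e*cos f)-e*(sin f)^2)*E e n1 n2 f+3*e*(sin f)^3*(K e n1 n2 f)^2
      +3*(1+e*cos f)^3*(1-(L n1 n2 f)^2)*(n1*n2) := by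
  have h := idA e (L n1 n2 f) (M n1 n2 f) (cos f) (sin f) (sin_sq_add_cos_sq f)
  rw [LM_P, ← dl_eq] at h
  exact h

lemma fI (e n1 n2 f : ℝ) : (1-(L n1 n2 f)^2)*E' e n1 n2 f
    = -3*(L n1 n2 f*M n1 n2 f)*E e n1 n2 f
      +3*sin f*((1-n1^2-n2^2)*(1+e*cos f)*K e n1 n2 f-e*sin f*(1-(L n1 n2 f)^2)^3) := by
  have h := idI e (L n1 n2 f) (M n1 n2 f) (cos f) (sin f) (sin_sq_add_cos_sq f)
  rw [← dl_eq] at h
  exact h

lemma hT (e n1 n2 f : ℝ) : HasDerivAt (T e n1 n2) (10*e*(sin f)^3*(L n1 n2 f*M n1 n2 f)) f := by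
  have hc := hasDerivAt_cos f
  have hs := hasDerivAt_sin f
  have h1 : HasDerivAt (fun x => 2*(n1*n2)*(1+e^2+e*cos x*(2+(sin x)^2+2*(sin x)^4)))
      (2*(n1*n2)*(e*(-sin f)*(2+(sin f)^2+2*(sin f)^4)
        +e*cos f*(2*sin f*cos f+2*(4*(sin f)^3*cos f)))) f := by
    have := (((hc.const_mul e).mul (((hs.pow 2).const_add 2).add ((hs.pow 4).const_mul 2))).const_add
      (1+e^2)).const_mul (2*(n1*n2))
    refine HasDerivAt.congr_deriv this ?_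
    simp only [Nat.cast_ofNat, Nat.add_one_sub_one, pow_one, Pi.pow_apply, Pi.add_apply]
  have h2 : HasDerivAt (fun x => 2*e*(sin x)^5*(n1^2-n2^2)) (2*e*(5*(sin f)^4*cos f)*(n1^2-n2^2)) f := by
    have := ((hs.pow 5).const_mul (2*e)).mul_const (n1^2-n2^2)
    refine HasDerivAt.congr_deriv this ?_
    norm_num
  have h := h1.sub h2
  have hfun : T e n1 n2 = (fun x => 2*(n1*n2)*(1+e^2+e*cos x*(2+(sin x)^2+2*(sin x)^4))
      -2*e*(sin x)^5*(n1^2-n2^2)) := by funext x; rfl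
  rw [hfun]
  refine HasDerivAt.congr_deriv h ?_
  rw [LM_prod]
  have q := sin_sq_add_cos_sq f
  linear_combination (6*e*(n1*n2)*(sin f)^3+4*e*(n1*n2)*sin f)*q

end Pool.Agent.H225.Confocal
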