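import Pool.Agent.H225.ConfocalRolle

set_option autoImplicit false
open Real Set

namespace Pool.Agent.H225.Confocal

section
variable {e n1 n2 : ℝ}

lemma rolleY (h0 : 0 < e) (hν : n1^2+n2^2 < 1) {x y : ℝ} (hx : x ∈ Ioo 0 π) (hy : y ∈ Ioo 0 π)
    (hxy : x < y) (he : Y e n1 n2 x = Y e n1 n2 y) : ∃ z ∈ Ioo x y, E e n1 n2 z = 0 := by
  obtain ⟨z, hz, h⟩ := rolle hxy (fun z hz => hY h0 hν (mem_of hx hy hz)) he
  refine ⟨z, hz, ?_⟩
  have hz' := mem_of hx hy (Ioo_subset_Icc_self hz)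
  have hs := s_pos hz'
  have hQ := Q_pos hν z
  rw [div_eq_zero_iff] at h
  rcases h with h | h
  · linarith
  · exfalso
    have : 0 < e*(sin z)^2*((1-(L n1 n2 z)^2)*√(1-(L n1 n2 z)^2)) := by positivity
    linarith

lemma hEs {f : ℝ} (hf : f ∈ Ioo 0 π) : HasDerivAt (fun x => E e n1 n2 x/(sin x)^3)
    ((3/2*(1-(L n1 n2 f)^2)*T e n1 n2 f)/(sin f)^4) f := by
  have hs := s_pos hf
  have h := (hE e n1 n2 f).div ((hasDerivAt_sin f).pow 3) (by simp only [Pi.pow_apply]; positivity)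
  refine HasDerivAt.congr_deriv h ?_
  have hb := fB e n1 n2 f
  simp only [Pi.pow_apply]
  rw [div_eq_div_iff (by positivity) (by positivity)]
  norm_num
  linear_combination ((sin f)^6)*hb

lemma hEA (h0 : 0 < e) (h1 : e < 1) {f : ℝ} (hf : f ∈ Ioo 0 π) :
    HasDerivAt (fun x => E e n1 n2 x/((sin x)^3*(1+e*cos x)^3))
    ((3*e*(sin f)^3*(K e n1 n2 f)^2+3*(1+e*cos f)^3*(1-(L n1 n2 f)^2)*(n1*n2))
      /((sin f)^4*(1+e*cos f)^4)) f := by
  have hs := s_pos hf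
  have hw := w_pos h0 h1 f
  have h := (hE e n1 n2 f).div (((hasDerivAt_sin f).pow 3).mul ((hW e f).pow 3))
    (by simp only [Pi.mul_apply, Pi.pow_apply]; positivity)
  refine HasDerivAt.congr_deriv h ?_
  have hb := fA e n1 n2 f
  simp only [Pi.pow_apply, Pi.mul_apply]
  rw [div_eq_div_iff (by positivity) (by positivity)]
  norm_num
  linear_combination ((sin f)^6*(1+e*cos f)^6)*hb

lemma hEI (hν : n1^2+n2^2 < 1) (f : ℝ) :
    HasDerivAt (fun x => E e n1 n2 x/(√(1-(L n1 n2 x)^2))^3)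
    (3*sin f*((1-n1^2-n2^2)*(1+e*cos f)*K e n1 n2 f-e*sin f*(1-(L n1 n2 f)^2)^3)
      /(√(1-(L n1 n2 f)^2))^5) f := by
  have hQp := Q_pos hν f
  have hsq := (hQ n1 n2 f).sqrt hQp.ne'
  have hS : 0 < √(1-(L n1 n2 f)^2) := sqrt_pos.mpr hQp
  have h := (hE e n1 n2 f).div (hsq.pow 3) (by simp only [Pi.pow_apply]; positivity)
  refine HasDerivAt.congr_deriv h ?_
  have hSS : √(1-(L n1 n2 f)^2)^2 = 1-(L n1 n2 f)^2 := sq_sqrt hQp.le
  have hb := fI e n1 n2 f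
  simp only [Pi.pow_apply]
  rw [div_eq_div_iff (by positivity) (by positivity)]
  set S := √(1-(L n1 n2 f)^2) with hSdef
  rw [← hSS] at hb ⊢
  norm_num
  field_simp
  linear_combination hb

lemma hKs {f : ℝ} (hf : f ∈ Ioo 0 π) : HasDerivAt (fun x => K e n1 n2 x/sin x)
    (J e n1 n2 f/(sin f)^2) f := by
  have hs := s_pos hf
  have h := (hK e n1 n2 f).div (hasDerivAt_sin f) hs.ne'
  refine HasDerivAt.congr_deriv h ?_
  have hb := fK e n1 n2 f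
  rw [div_eq_div_iff (by positivity) (by positivity)]
  linear_combination ((sin f)^2)*hb

lemma rolleE (hν : n1^2+n2^2 < 1) {x y : ℝ} (hx : x ∈ Ioo 0 π) (hy : y ∈ Ioo 0 π)
    (hxy : x < y) (hEx : E e n1 n2 x = 0) (hEy : E e n1 n2 y = 0) :
    ∃ z ∈ Ioo x y, T e n1 n2 z = 0 := by
  obtain ⟨z, hz, h⟩ := rolle hxy (fun z hz => hEs (e := e) (n1 := n1) (n2 := n2) (mem_of hx hy hz))
    (by simp only [hEx, hEy]; simp)
  refine ⟨z, hz, ?_⟩
  have hz' := mem_of hx hy (Ioo_subset_Icc_self hz)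
  have hs := s_pos hz'
  have hQ := Q_pos hν z
  rw [div_eq_zero_iff] at h
  rcases h with h | h
  · rcases mul_eq_zero.mp h with h | h
    · exfalso; linarith
    · exact h
  · exfalso
    have : 0 < (sin z)^4 := by positivity
    linarith

lemma posA (h0 : 0 < e) (h1 : e < 1) (hν : n1^2+n2^2 < 1) (hP : 0 < n1*n2) {x y : ℝ}
    (hx : x ∈ Ioo 0 π) (hy : y ∈ Ioo 0 π)
    (hxy : x < y) (hEx : E e n1 n2 x = 0) (hEy : E e n1 n2 y = 0) : False := by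
  obtain ⟨z, hz, h⟩ := rolle hxy
    (fun z hz => hEA (e := e) (n1 := n1) (n2 := n2) h0 h1 (mem_of hx hy hz))
    (by simp only [hEx, hEy]; simp)
  have hz' := mem_of hx hy (Ioo_subset_Icc_self hz)
  have hs := s_pos hz'
  have hQ := Q_pos hν z
  have hw := w_pos h0 h1 z
  have : 0 < (3*e*(sin z)^3*(K e n1 n2 z)^2+3*(1+e*cos z)^3*(1-(L n1 n2 z)^2)*(n1*n2))
      /((sin z)^4*(1+e*cos z)^4) := by
    apply div_pos
    · have a1 : 0 ≤ 3*e*(sin z)^3*(K e n1 n2 z)^2 := by positivity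
      have a2 : 0 < 3*(1+e*cos z)^3*(1-(L n1 n2 z)^2)*(n1*n2) := by positivity
      linarith
    · positivity
  linarith

lemma rolleT (h0 : 0 < e) {x y : ℝ} (hx : x ∈ Ioo 0 π) (hy : y ∈ Ioo 0 π)
    (hxy : x < y) (hTx : T e n1 n2 x = 0) (hTy : T e n1 n2 y = 0) :
    ∃ z ∈ Ioo x y, L n1 n2 z*M n1 n2 z = 0 := by
  obtain ⟨z, hz, h⟩ := rolle hxy (fun z _ => hT e n1 n2 z) (by rw [hTx, hTy])
  refine ⟨z, hz, ?_⟩
  have hz' := mem_of hx hy (Ioo_subset_Icc_self hz)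
  have hs := s_pos hz'
  rcases mul_eq_zero.mp h with h | h
  · exfalso
    have : 0 < 10*e*(sin z)^3 := by positivity
    linarith
  · exact h

lemma noLL (hn : n1 ≠ 0 ∨ n2 ≠ 0) {x y : ℝ} (hx : x ∈ Ioo 0 π) (hy : y ∈ Ioo 0 π) (hxy : x < y)
    (h1 : L n1 n2 x = 0) (h2 : L n1 n2 y = 0) : False := by
  have hs : 0 < sin (y-x) := sin_pos_of_pos_of_lt_pi (by linarith) (by linarith [hx.1, hy.2])
  rw [sin_sub] at hs
  unfold L at h1 h2
  have a1 : n1*(sin y*cos x-cos y*sin x) = 0 := by linear_combination sin y*h1-sin x*h2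
  have a2 : n2*(sin y*cos x-cos y*sin x) = 0 := by linear_combination -cos y*h1+cos x*h2
  rcases hn with hn | hn
  · rcases mul_eq_zero.mp a1 with h | h
    · exact hn h
    · linarith
  · rcases mul_eq_zero.mp a2 with h | h
    · exact hn h
    · linarith

lemma noMM (hn : n1 ≠ 0 ∨ n2 ≠ 0) {x y : ℝ} (hx : x ∈ Ioo 0 π) (hy : y ∈ Ioo 0 π) (hxy : x < y)
    (h1 : M n1 n2 x = 0) (h2 : M n1 n2 y = 0) : False := by
  have hs : 0 < sin (y-x) := sin_pos_of_pos_of_lt_pi (by linarith) (by linarith [hx.1, hy.2])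
  rw [sin_sub] at hs
  unfold M at h1 h2
  have a1 : n2*(sin y*cos x-cos y*sin x) = 0 := by linear_combination sin y*h1-sin x*h2
  have a2 : n1*(sin y*cos x-cos y*sin x) = 0 := by linear_combination cos y*h1-cos x*h2
  rcases hn with hn | hn
  · rcases mul_eq_zero.mp a2 with h | h
    · exact hn h
    · linarith
  · rcases mul_eq_zero.mp a1 with h | h
    · exact hn h
    · linarith

/-- `ℓ ℓ'` has at most two zeros in `(0,π)`. -/
lemma no3 (hn : n1 ≠ 0 ∨ n2 ≠ 0) {x y z : ℝ} (hx : x ∈ Ioo 0 π) (hy : y ∈ Ioo 0 π)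
    (hz : z ∈ Ioo 0 π) (hxy : x < y) (hyz : y < z)
    (h1 : L n1 n2 x*M n1 n2 x = 0) (h2 : L n1 n2 y*M n1 n2 y = 0)
    (h3 : L n1 n2 z*M n1 n2 z = 0) : False := by
  rcases mul_eq_zero.mp h1 with a | a <;> rcases mul_eq_zero.mp h2 with b | b <;>
    rcases mul_eq_zero.mp h3 with d | d
  · exact noLL hn hx hy hxy a b
  · exact noLL hn hx hy hxy a b
  · exact noLL hn hx hz (hxy.trans hyz) a d
  · exact noMM hn hy hz hyz b d
  · exact noLL hn hy hz hyz b d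
  · exact noMM hn hx hz (hxy.trans hyz) a d
  · exact noMM hn hx hy hxy a b
  · exact noMM hn hx hy hxy a b

lemma LM_cont : Continuous (fun x => L n1 n2 x*M n1 n2 x) := by
  unfold L M; fun_prop

lemma ivt_zero {x y : ℝ} (hxy : x < y) (h1 : L n1 n2 x*M n1 n2 x < 0)
    (h2 : 0 < L n1 n2 y*M n1 n2 y) : ∃ z ∈ Ioo x y, L n1 n2 z*M n1 n2 z = 0 := by
  have := intermediate_value_Ioo hxy.le (LM_cont (n1 := n1) (n2 := n2)).continuousOn
  exact this ⟨h1, h2⟩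

lemma ivt_zero' {x y : ℝ} (hxy : x < y) (h1 : 0 < L n1 n2 x*M n1 n2 x)
    (h2 : L n1 n2 y*M n1 n2 y < 0) : ∃ z ∈ Ioo x y, L n1 n2 z*M n1 n2 z = 0 := by
  have := intermediate_value_Ioo' hxy.le (LM_cont (n1 := n1) (n2 := n2)).continuousOn
  exact this ⟨h2, h1⟩

lemma LM_zero : L n1 n2 0*M n1 n2 0 = n1*n2 := by unfold L M; simp

/-- mixed sign case: `T` has at most two zeros in `(0,π)`. -/
lemma noT3 (h0 : 0 < e) (hP : n1*n2 < 0) {x y z : ℝ} (hx : x ∈ Ioo 0 π) (hy : y ∈ Ioo 0 π)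
    (hz : z ∈ Ioo 0 π) (hxy : x < y) (hyz : y < z)
    (h1 : T e n1 n2 x = 0) (h2 : T e n1 n2 y = 0) (h3 : T e n1 n2 z = 0) : False := by
  have hn : n1 ≠ 0 ∨ n2 ≠ 0 := by
    left; rintro rfl; simp at hP
  obtain ⟨u, hu, hu0⟩ := rolleT h0 hx hy hxy h1 h2
  obtain ⟨v, hv, hv0⟩ := rolleT h0 hy hz hyz h2 h3
  have hT0 : T e n1 n2 0 < 0 := by
    have : T e n1 n2 0 = 2*(n1*n2)*(1+e)^2 := by unfold T T6; rw [sin_zero, cos_zero]; ring
    rw [this]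
    have : 0 < (1+e)^2 := by positivity
    nlinarith
  obtain ⟨w, hw, hw0⟩ := mvt_pos hx.1 (fun z _ => hT e n1 n2 z) (by rw [h1]; exact hT0)
  have hws : 0 < sin w := s_pos ⟨hw.1, hw.2.trans hx.2⟩
  have hw1 : 0 < L n1 n2 w*M n1 n2 w := by
    have : 0 < 10*e*(sin w)^3 := by positivity
    exact (mul_pos_iff_of_pos_left this).mp hw0
  obtain ⟨t, ht, ht0⟩ := ivt_zero hw.1 (by rw [LM_zero]; exact hP) hw1
  refine no3 hn (x := t) (y := u) (z := v) ⟨ht.1, ?_⟩ ⟨?_, ?_⟩ ⟨?_, ?_⟩ ?_ ?_ ht0 hu0 hv0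
  · linarith [ht.2, hw.2, hx.2]
  · linarith [hu.1, hx.1]
  · linarith [hu.2, hy.2]
  · linarith [hv.1, hy.1]
  · linarith [hv.2, hz.2]
  · linarith [ht.2, hw.2, hu.1]
  · linarith [hu.2, hv.1]

/-- mixed sign case: the set where `K < 0` is an interval. -/
lemma K_conv (h0 : 0 < e) (h1 : e < 1) (hP : n1*n2 < 0) {x y z : ℝ} (hx : x ∈ Ioo 0 π)
    (hz : z ∈ Ioo 0 π) (hxy : x < y) (hyz : y < z)
    (hKx : K e n1 n2 x < 0) (hKz : K e n1 n2 z < 0) : K e n1 n2 y < 0 := by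
  by_contra hK
  push Not at hK
  have hn : n1 ≠ 0 ∨ n2 ≠ 0 := by
    left; rintro rfl; simp at hP
  have hy : y ∈ Ioo 0 π := ⟨hx.1.trans hxy, hyz.trans hz.2⟩
  have sx := s_pos hx
  have sy := s_pos hy
  have sz := s_pos hz
  obtain ⟨u, hu, hu0⟩ := mvt_pos hxy (fun t ht => hKs (e := e) (n1 := n1) (n2 := n2) (mem_of hx hy ht))
    (lt_of_lt_of_le (div_neg_of_neg_of_pos hKx sx) (div_nonneg hK sy.le))
  obtain ⟨v, hv, hv0⟩ := mvt_neg hyz (fun t ht => hKs (e := e) (n1 := n1) (n2 := n2) (mem_of hy hz ht))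
    (lt_of_lt_of_le (div_neg_of_neg_of_pos hKz sz) (div_nonneg hK sy.le))
  have hu' := mem_of hx hy (Ioo_subset_Icc_self hu)
  have hv' := mem_of hy hz (Ioo_subset_Icc_self hv)
  have su := s_pos hu'
  have sv := s_pos hv'
  have hJu : 0 < J e n1 n2 u := by
    by_contra h
    push Not at h
    exact absurd hu0 (not_lt.mpr (div_nonpos_of_nonpos_of_nonneg h (by positivity)))
  have hJv : J e n1 n2 v < 0 := by
    by_contra h
    push Not at h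
    exact absurd hv0 (not_lt.mpr (div_nonneg h (by positivity)))
  have hJ0 : J e n1 n2 0 < 0 := by
    have : J e n1 n2 0 = (n1*n2)*(e+1) := by unfold J J6; rw [sin_zero, cos_zero]; ring
    rw [this]; nlinarith
  have hJpi : 0 < J e n1 n2 π := by
    have : J e n1 n2 π = (n1*n2)*(e-1) := by unfold J J6; rw [sin_pi, cos_pi]; ring
    rw [this]; nlinarith
  obtain ⟨p, hp, hp0⟩ := mvt_pos hu'.1 (fun t _ => hJ e n1 n2 t) (hJ0.trans hJu)
  obtain ⟨q, hq, hq0⟩ := mvt_neg (hu.2.trans hv.1) (fun t _ => hJ e n1 n2 t) (hJv.trans hJu)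
  obtain ⟨r, hr, hr0⟩ := mvt_pos hv'.2 (fun t _ => hJ e n1 n2 t) (hJv.trans hJpi)
  have mp : p ∈ Ioo 0 π := ⟨hp.1, hp.2.trans hu'.2⟩
  have mq : q ∈ Ioo 0 π := ⟨hu'.1.trans hq.1, hq.2.trans hv'.2⟩
  have mr : r ∈ Ioo 0 π := ⟨hv'.1.trans hr.1, hr.2⟩
  have sp := s_pos mp
  have sq' := s_pos mq
  have sr := s_pos mr
  have lp : 0 < L n1 n2 p*M n1 n2 p := (mul_pos_iff_of_pos_left (by positivity)).mp hp0
  have lq : L n1 n2 q*M n1 n2 q < 0 := by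
    by_contra h
    push Not at h
    have : 0 ≤ 3*sin q*(L n1 n2 q*M n1 n2 q) := mul_nonneg (by positivity) h
    linarith
  have lr : 0 < L n1 n2 r*M n1 n2 r := (mul_pos_iff_of_pos_left (by positivity)).mp hr0
  obtain ⟨a, ha, ha0⟩ := ivt_zero hp.1 (by rw [LM_zero]; exact hP) lp
  obtain ⟨b, hb, hb0⟩ := ivt_zero' (hp.2.trans hq.1) lp lq
  obtain ⟨d, hd, hd0⟩ := ivt_zero (hq.2.trans hr.1) lq lr
  refine no3 hn (x := a) (y := b) (z := d) ⟨ha.1, ?_⟩ ⟨?_, ?_⟩ ⟨?_, ?_⟩ ?_ ?_ ha0 hb0 hd0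
  · linarith [ha.2, mp.2]
  · linarith [hb.1, mp.1]
  · linarith [hb.2, mq.2]
  · linarith [hd.1, mq.1]
  · linarith [hd.2, mr.2]
  · linarith [ha.2, hb.1]
  · linarith [hb.2, hd.1]

/-- On an interval where `K < 0`, `E` has at most one zero. -/
lemma noE2neg (h0 : 0 < e) (h1 : e < 1) (hν : n1^2+n2^2 < 1) {x y : ℝ} (hx : x ∈ Ioo 0 π)
    (hy : y ∈ Ioo 0 π) (hxy : x < y) (hK : ∀ z ∈ Icc x y, K e n1 n2 z < 0)
    (hEx : E e n1 n2 x = 0) (hEy : E e n1 n2 y = 0) : False := by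
  obtain ⟨z, hz, h⟩ := rolle hxy (fun z _ => hEI (e := e) hν z) (by simp only [hEx, hEy]; simp)
  have hz' := mem_of hx hy (Ioo_subset_Icc_self hz)
  have hs := s_pos hz'
  have hQ := Q_pos hν z
  have hw := w_pos h0 h1 z
  have hS : 0 < √(1-(L n1 n2 z)^2) := sqrt_pos.mpr hQ
  have hKz := hK z (Ioo_subset_Icc_self hz)
  have hd : 0 < 1-n1^2-n2^2 := by linarith
  have a1 : (1-n1^2-n2^2)*(1+e*cos z)*K e n1 n2 z < 0 := mul_neg_of_pos_of_neg (by positivity) hKz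
  have a2 : 0 < e*sin z*(1-(L n1 n2 z)^2)^3 := by positivity
  have : 3*sin z*((1-n1^2-n2^2)*(1+e*cos z)*K e n1 n2 z-e*sin z*(1-(L n1 n2 z)^2)^3)
      /(√(1-(L n1 n2 z)^2))^5 < 0 := by
    apply div_neg_of_neg_of_pos
    · apply mul_neg_of_pos_of_neg (by positivity); linarith
    · positivity
  linarith

end
end Pool.Agent.H225.Confocal
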