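import Pool.Agent.H225.ConfocalPerp

set_option autoImplicit false
open Real Set

namespace Pool.Agent.H225.Confocal

section
variable {p e r n1 n2 : ℝ}

/-- anomalies in `(0,π)` of stationary pairs. -/
def G (p e r n1 n2 : ℝ) : Set ℝ := {f | f ∈ Ioo 0 π ∧ ∃ α : ℝ, α ≠ 0 ∧ α^2 = 1-(L n1 n2 f)^2 ∧
  p*e*sin f*α = r*(1+e*cos f)*K e n1 n2 f}

lemma G_sub (hp : 0 < p) (h0 : 0 < e) (hr : 0 < r) (hν : n1^2+n2^2 < 1) :
    G p e r n1 n2 ⊆ lev e n1 n2 (p/r) ∪ lev e n1 n2 (-(p/r)) := by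
  rintro f ⟨hf, α, hα, hα2, hrel⟩
  have hs := s_pos hf
  have hQ := Q_pos hν f
  have hS : 0 < √(1-(L n1 n2 f)^2) := sqrt_pos.mpr hQ
  have hSS : √(1-(L n1 n2 f)^2)^2 = 1-(L n1 n2 f)^2 := sq_sqrt hQ.le
  have h : (α-√(1-(L n1 n2 f)^2))*(α+√(1-(L n1 n2 f)^2)) = 0 := by
    linear_combination hα2-hSS
  rcases mul_eq_zero.mp h with h | h
  · left
    refine ⟨hf, ?_⟩
    have hα' : α = √(1-(L n1 n2 f)^2) := by linarith
    unfold Y
    rw [div_eq_div_iff (by positivity) hr.ne', ← hα']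
    linear_combination -hrel
  · right
    refine ⟨hf, ?_⟩
    have hα' : √(1-(L n1 n2 f)^2) = -α := by linarith
    unfold Y
    rw [← neg_div, div_eq_div_iff (by positivity) hr.ne', hα']
    linear_combination -hrel

lemma K_perp (hν : n1^2+n2^2 = 1) (f : ℝ) :
    K e n1 n2 f = -(M n1 n2 f*(L n1 n2 f+e*n1)) := by
  have q := sin_sq_add_cos_sq f
  have h1 := LM_sq n1 n2 f
  rw [hν] at h1
  have h2 : sin f = n2*L n1 n2 f-n1*M n1 n2 f := by
    unfold L M; linear_combination (-sin f)*hν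
  have h3 : n1 = L n1 n2 f*cos f-M n1 n2 f*sin f := by
    unfold L M; linear_combination (-n1)*q
  have h4 : n2 = L n1 n2 f*sin f+M n1 n2 f*cos f := by
    unfold L M; linear_combination (-n2)*q
  unfold K KK
  set a := L n1 n2 f
  set b := M n1 n2 f
  -- e s (1-a^2) - (1+e c) a b = -b (a + e n1)
  -- 1 - a^2 = b^2
  have h5 : 1-a^2 = b^2 := by linarith
  rw [h5]
  rw [h3]
  ring

lemma G_sub' (hp : 0 < p) (h0 : 0 < e) (hr : 0 < r) (hν : n1^2+n2^2 = 1) :
    G p e r n1 n2 ⊆ levZ e n1 n2 (p/r) ∪ levZ e n1 n2 (-(p/r)) := by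
  rintro f ⟨hf, α, hα, hα2, hrel⟩
  have hs := s_pos hf
  have h1 := LM_sq n1 n2 f
  rw [hν] at h1
  have h5 : 1-(L n1 n2 f)^2 = (M n1 n2 f)^2 := by linarith
  rw [h5] at hα2
  rw [K_perp hν] at hrel
  have hM : M n1 n2 f ≠ 0 := by
    intro h; rw [h] at hα2; simp at hα2; exact hα hα2
  have h : (α-M n1 n2 f)*(α+M n1 n2 f) = 0 := by linear_combination hα2
  rcases mul_eq_zero.mp h with h | h
  · right
    refine ⟨hf, ?_⟩
    have hα' : α = M n1 n2 f := by linarith
    rw [hα'] at hrel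
    have : p*e*sin f = -(r*(1+e*cos f)*(L n1 n2 f+e*n1)) := by
      apply mul_right_cancel₀ hM
      linear_combination hrel
    unfold Z
    rw [← neg_div, div_eq_div_iff (by positivity) hr.ne']
    linear_combination this
  · left
    refine ⟨hf, ?_⟩
    have hα' : α = -M n1 n2 f := by linarith
    rw [hα'] at hrel
    have : p*e*sin f = (r*(1+e*cos f)*(L n1 n2 f+e*n1)) := by
      apply mul_right_cancel₀ hM
      linear_combination -hrel
    unfold Z
    rw [div_eq_div_iff (by positivity) hr.ne']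
    linear_combination -this

lemma enc_union {A B C : Set ℝ} (h : C ⊆ A ∪ B) {m n : ℕ∞} (hA : A.encard ≤ m) (hB : B.encard ≤ n) :
    C.encard ≤ m+n :=
  (Set.encard_le_encard h).trans ((Set.encard_union_le A B).trans (add_le_add hA hB))

lemma G_pos (hp : 0 < p) (h0 : 0 < e) (h1 : e < 1) (hr : 0 < r) (hν : n1^2+n2^2 < 1)
    (hP : 0 < n1*n2) : (G p e r n1 n2).encard ≤ 4 := by
  have := enc_union (G_sub hp h0 hr hν) (lev_pos h0 h1 hν hP _) (lev_pos h0 h1 hν hP _)
  exact this.trans (by norm_num)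

lemma G_neg (hp : 0 < p) (h0 : 0 < e) (h1 : e < 1) (hr : 0 < r) (hν : n1^2+n2^2 < 1)
    (hP : n1*n2 < 0) : (G p e r n1 n2).encard ≤ 6 := by
  have hκ : -(p/r) < 0 := by have : 0 < p/r := by positivity
                             linarith
  have := enc_union (G_sub hp h0 hr hν) (lev_neg h0 hν hP _) (lev_neg' h0 h1 hν hP hκ)
  exact this.trans (by norm_num)

lemma G_zero (hp : 0 < p) (h0 : 0 < e) (h1 : e < 1) (hr : 0 < r) (hν : n1^2+n2^2 < 1)
    (hP : n1*n2 = 0) : (G p e r n1 n2).encard ≤ 3 := by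
  have hκ : -(p/r) < 0 := by have : 0 < p/r := by positivity
                             linarith
  by_cases h2 : n2 = 0
  · subst h2
    have := enc_union (G_sub hp h0 hr hν) (lev_n2 h0 h1 hν _) (lev_n2 h0 h1 hν _)
    exact this.trans (by norm_num)
  · have h3 : n1 = 0 := by
      rcases mul_eq_zero.mp hP with h | h
      · exact h
      · exact absurd h h2
    subst h3
    have := enc_union (G_sub hp h0 hr hν) (lev_n1 h0 hν h2 _) (lev_n1' h0 h1 hν h2 hκ)
    exact this.trans (by norm_num)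

lemma G_pos' (hp : 0 < p) (h0 : 0 < e) (h1 : e < 1) (hr : 0 < r) (hν : n1^2+n2^2 = 1)
    (hn : n1 ≠ 0) (hP : 0 ≤ n1*n2) : (G p e r n1 n2).encard ≤ 2 := by
  have := enc_union (G_sub' hp h0 hr hν) (levZ_one h0 h1 hn hP _) (levZ_one h0 h1 hn hP _)
  exact this.trans (by norm_num)

lemma G_neg' (hp : 0 < p) (h0 : 0 < e) (h1 : e < 1) (hr : 0 < r) (hν : n1^2+n2^2 = 1)
    (hP : n1*n2 < 0) : (G p e r n1 n2).encard ≤ 4 := by
  have hn : n1 ≠ 0 := by rintro rfl; simp at hP
  have hκ : 0 < p/r := by positivity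
  rcases lt_or_gt_of_ne hn with h | h
  · have := enc_union (G_sub' hp h0 hr hν) (levZ_three h0 h1 hn _)
      (levZ_sign (κ := -(p/r)) h0 h1 hP (mul_pos_of_neg_of_neg h (by linarith)))
    exact this.trans (by norm_num)
  · have := enc_union (G_sub' hp h0 hr hν)
      (levZ_sign (κ := p/r) h0 h1 hP (mul_pos h hκ)) (levZ_three h0 h1 hn _)
    exact this.trans (by norm_num)

lemma G_zero' (hp : 0 < p) (h0 : 0 < e) (h1 : e < 1) (hr : 0 < r) (hν : (0:ℝ)^2+n2^2 = 1) :
    (G p e r 0 n2).encard ≤ 1 := by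
  have hκ : 0 < p/r := by positivity
  have hn : n2 ≠ 0 := by rintro rfl; norm_num at hν
  have hZ : ∀ f ∈ Ioo 0 π, Z e 0 n2 f = (1+e*cos f)*n2/e := by
    intro f hf
    have hs := s_pos hf
    unfold Z L
    rw [div_eq_div_iff (by positivity) h0.ne']
    ring
  have hone : ∀ κ : ℝ, (levZ e 0 n2 κ).encard ≤ 1 := by
    intro κ
    rw [Set.encard_le_one_iff]
    rintro x y ⟨hx, hx2⟩ ⟨hy, hy2⟩
    rw [hZ x hx] at hx2
    rw [hZ y hy] at hy2
    have h3 : (1+e*cos x)*n2/e = (1+e*cos y)*n2/e := hx2.trans hy2.symm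
    have h4 : cos x = cos y := by
      field_simp at h3
      have h5 : e*cos x = e*cos y := by linarith
      exact mul_left_cancel₀ h0.ne' h5
    exact injOn_cos ⟨hx.1.le, hx.2.le⟩ ⟨hy.1.le, hy.2.le⟩ h4
  rcases lt_or_gt_of_ne hn with h | h
  · have hem : levZ e 0 n2 (p/r) = ∅ := by
      ext f; simp only [levZ, Set.mem_ofPred_eq, mem_empty_iff_false, iff_false]
      rintro ⟨hf, hf2⟩
      rw [hZ f hf] at hf2
      have hw := w_pos h0 h1 f
      have : (1+e*cos f)*n2/e < 0 := div_neg_of_neg_of_pos (mul_neg_of_pos_of_neg hw h) h0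
      linarith
    have := G_sub' hp h0 hr hν
    rw [hem, empty_union] at this
    exact (Set.encard_le_encard this).trans (hone _)
  · have hem : levZ e 0 n2 (-(p/r)) = ∅ := by
      ext f; simp only [levZ, Set.mem_ofPred_eq, mem_empty_iff_false, iff_false]
      rintro ⟨hf, hf2⟩
      rw [hZ f hf] at hf2
      have hw := w_pos h0 h1 f
      have : 0 < (1+e*cos f)*n2/e := by positivity
      linarith
    have := G_sub' hp h0 hr hν
    rw [hem, union_empty] at this
    exact (Set.encard_le_encard this).trans (hone _)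

end
end Pool.Agent.H225.Confocal
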