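import Pool.Agent.H225.ConfocalG

set_option autoImplicit false
open Real Set

namespace Pool.Agent.H225.Confocal

/-- scalar stationarity equations; `(c,s)` true anomaly, `(x,y)` angle on the circle. -/
def stat (p e r A1 A2 B1 B2 c s x y : ℝ) : Prop :=
  (c*A1+s*A2)*y = (c*B1+s*B2)*x ∧
  p*e*s = r*(1+e*c)*(e*s*((c*A1+s*A2)*x+(c*B1+s*B2)*y)
    +(1+e*c)*((A2*c-A1*s)*x+(B2*c-B1*s)*y))

section
variable {p e r A1 A2 B1 B2 n1 n2 c s x y : ℝ}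

lemma stat_sq (h1 : A1^2+B1^2+n1^2 = 1) (h2 : A2^2+B2^2+n2^2 = 1) (h3 : A1*A2+B1*B2+n1*n2 = 0)
    (hcs : c^2+s^2 = 1) (hxy : x^2+y^2 = 1) (h : stat p e r A1 A2 B1 B2 c s x y) :
    ((c*A1+s*A2)*x+(c*B1+s*B2)*y)^2 = 1-(n1*c+n2*s)^2 := by
  obtain ⟨ha, _⟩ := h
  have e1 : ((c*A1+s*A2)*x+(c*B1+s*B2)*y)^2+((c*A1+s*A2)*y-(c*B1+s*B2)*x)^2
      = ((c*A1+s*A2)^2+(c*B1+s*B2)^2)*(x^2+y^2) := by ring
  rw [hxy, sub_eq_zero.mpr ha] at e1
  linear_combination e1+c^2*h1+s^2*h2+2*c*s*h3+hcs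

lemma stat_x (hxy : x^2+y^2 = 1) (h : stat p e r A1 A2 B1 B2 c s x y) :
    ((c*A1+s*A2)*x+(c*B1+s*B2)*y)*x = c*A1+s*A2 := by
  obtain ⟨ha, _⟩ := h
  linear_combination (-y)*ha+(c*A1+s*A2)*hxy

lemma stat_y (hxy : x^2+y^2 = 1) (h : stat p e r A1 A2 B1 B2 c s x y) :
    ((c*A1+s*A2)*x+(c*B1+s*B2)*y)*y = c*B1+s*B2 := by
  obtain ⟨ha, _⟩ := h
  linear_combination x*ha+(c*B1+s*B2)*hxy

lemma stat_rel (h1 : A1^2+B1^2+n1^2 = 1) (h2 : A2^2+B2^2+n2^2 = 1) (h3 : A1*A2+B1*B2+n1*n2 = 0)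
    (hcs : c^2+s^2 = 1) (hxy : x^2+y^2 = 1) (h : stat p e r A1 A2 B1 B2 c s x y) :
    p*e*s*((c*A1+s*A2)*x+(c*B1+s*B2)*y) = r*(1+e*c)*KK e (n1*c+n2*s) (n2*c-n1*s) c s := by
  have hx := stat_x hxy h
  have hy := stat_y hxy h
  have hq := stat_sq h1 h2 h3 hcs hxy h
  obtain ⟨_, hb⟩ := h
  set α := (c*A1+s*A2)*x+(c*B1+s*B2)*y with hα
  unfold KK
  -- α * α' = A A' + B B' = -ℓ m
  have e1 : α*((A2*c-A1*s)*x+(B2*c-B1*s)*y) = -((n1*c+n2*s)*(n2*c-n1*s)) := by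
    have : α*((A2*c-A1*s)*x+(B2*c-B1*s)*y)
        = (A2*c-A1*s)*(c*A1+s*A2)+(B2*c-B1*s)*(c*B1+s*B2) := by
      linear_combination (A2*c-A1*s)*hx+(B2*c-B1*s)*hy
    rw [this]
    linear_combination (c^2-s^2)*h3+c*s*(h2-h1)
  linear_combination α*hb+r*(1+e*c)*(1+e*c)*e1+r*(1+e*c)*e*s*hq

end

section
variable {V : Type*} [AddCommGroup V] [Module ℝ V]
variable (F u v a b : V) (p e r A1 A2 B1 B2 n1 n2 : ℝ)

noncomputable def pt (F u v : V) (p e : ℝ) (c s : ℝ) : V := F+(p/(1+e*c))•(c•u+s•v)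
noncomputable def cp (F a b : V) (r : ℝ) (x y : ℝ) : V := F+r•(x•a+y•b)

def St : Set (V × V) := {q | ∃ c s x y : ℝ, c^2+s^2 = 1 ∧ x^2+y^2 = 1 ∧
  stat p e r A1 A2 B1 B2 c s x y ∧ q = (pt F u v p e c s, cp F a b r x y)}

noncomputable def Ψ (g : ℝ) : V × V :=
  (pt F u v p e (cos g) (sin g),
    cp F a b r ((cos g*A1+sin g*A2)/(r*(1+e*cos g)*K e n1 n2 g/(p*e*sin g)))
      ((cos g*B1+sin g*B2)/(r*(1+e*cos g)*K e n1 n2 g/(p*e*sin g))))

variable {F u v a b p e r A1 A2 B1 B2 n1 n2}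

lemma cover_pos (hp : 0 < p) (h0 : 0 < e)
    (h1 : A1^2+B1^2+n1^2 = 1) (h2 : A2^2+B2^2+n2^2 = 1) (h3 : A1*A2+B1*B2+n1*n2 = 0)
    {c s x y : ℝ} (hcs : c^2+s^2 = 1) (hxy : x^2+y^2 = 1)
    (h : stat p e r A1 A2 B1 B2 c s x y) (hs : 0 < s)
    (hα : (c*A1+s*A2)*x+(c*B1+s*B2)*y ≠ 0) :
    (pt F u v p e c s, cp F a b r x y) ∈ Ψ F u v a b p e r A1 A2 B1 B2 n1 n2 '' G p e r n1 n2 := by
  have hc1 : -1 ≤ c := by nlinarith
  have hc2 : c ≤ 1 := by nlinarith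
  have hcos : cos (arccos c) = c := cos_arccos hc1 hc2
  have hsin : sin (arccos c) = s := by
    rw [sin_arccos, show 1-c^2 = s^2 by linarith, sqrt_sq hs.le]
  have hg0 : 0 < arccos c := by
    rcases (arccos_nonneg c).lt_or_eq with h | h
    · exact h
    · exfalso; rw [← h, sin_zero] at hsin; linarith
  have hgpi : arccos c < π := by
    rcases (arccos_le_pi c).lt_or_eq with h | h
    · exact h
    · exfalso; rw [h, sin_pi] at hsin; linarith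
  have hrel := stat_rel h1 h2 h3 hcs hxy h
  have hsq := stat_sq h1 h2 h3 hcs hxy h
  have hx := stat_x hxy h
  have hy := stat_y hxy h
  have hK : K e n1 n2 (arccos c) = KK e (n1*c+n2*s) (n2*c-n1*s) c s := by
    unfold K L M; rw [hcos, hsin]
  refine ⟨arccos c, ⟨⟨hg0, hgpi⟩, _, hα, ?_, ?_⟩, ?_⟩
  · unfold L; rw [hcos, hsin]; exact hsq
  · rw [hK, hcos, hsin]; exact hrel
  · unfold Ψ
    rw [hK, hcos, hsin]
    have hα2 : r*(1+e*c)*KK e (n1*c+n2*s) (n2*c-n1*s) c s/(p*e*s)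
        = (c*A1+s*A2)*x+(c*B1+s*B2)*y := by
      rw [← hrel]; field_simp
    rw [hα2]
    have e1 : (c*A1+s*A2)/((c*A1+s*A2)*x+(c*B1+s*B2)*y) = x := by
      rw [div_eq_iff hα]; linarith
    have e2 : (c*B1+s*B2)/((c*A1+s*A2)*x+(c*B1+s*B2)*y) = y := by
      rw [div_eq_iff hα]; linarith
    rw [e1, e2]

lemma stat_neg {c s x y : ℝ} (h : stat p e r A1 A2 B1 B2 c s x y) :
    stat p e r A1 (-A2) B1 (-B2) c (-s) x y := by
  obtain ⟨ha, hb⟩ := h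
  refine ⟨by linear_combination ha, by linear_combination -hb⟩

lemma pt_neg (c s : ℝ) : pt F u (-v) p e c (-s) = pt F u v p e c s := by
  unfold pt; simp

lemma cover_neg (hp : 0 < p) (h0 : 0 < e)
    (h1 : A1^2+B1^2+n1^2 = 1) (h2 : A2^2+B2^2+n2^2 = 1) (h3 : A1*A2+B1*B2+n1*n2 = 0)
    {c s x y : ℝ} (hcs : c^2+s^2 = 1) (hxy : x^2+y^2 = 1)
    (h : stat p e r A1 A2 B1 B2 c s x y) (hs : s < 0)
    (hα : (c*A1+s*A2)*x+(c*B1+s*B2)*y ≠ 0) :
    (pt F u v p e c s, cp F a b r x y)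
      ∈ Ψ F u (-v) a b p e r A1 (-A2) B1 (-B2) n1 (-n2) '' G p e r n1 (-n2) := by
  have := cover_pos (F := F) (u := u) (v := -v) (a := a) (b := b) (n1 := n1) (n2 := -n2) hp h0
    h1 (by rw [← h2]; ring) (by linear_combination -h3)
    (by rw [← hcs]; ring : c^2+(-s)^2 = 1) hxy (stat_neg h) (by linarith)
    (by intro h'; apply hα; rw [← h']; ring)
  rwa [pt_neg] at this

/-- stationary pairs over the apsides. -/
noncomputable def S0 (F u v a b : V) (p e r A1 B1 n1 : ℝ) : Set (V × V) :=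
  (fun q : ℝ × ℝ => (pt F u v p e q.1 0,
    cp F a b r (q.1*A1/(q.2*√(1-n1^2))) (q.1*B1/(q.2*√(1-n1^2))))) '' (({1,-1} : Set ℝ) ×ˢ ({1,-1} : Set ℝ))

lemma enc_four {W : Type*} (f : ℝ × ℝ → W) : (f '' (({1,-1} : Set ℝ) ×ˢ ({1,-1} : Set ℝ))).encard ≤ 4 := by
  have h2 : ({1,-1} : Set ℝ).encard ≤ 2 := (Set.encard_pair (by norm_num)).le
  calc (f '' (({1,-1} : Set ℝ) ×ˢ ({1,-1} : Set ℝ))).encard
      ≤ (({1,-1} : Set ℝ) ×ˢ ({1,-1} : Set ℝ)).encard := Set.encard_image_le _ _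
    _ = ({1,-1} : Set ℝ).encard * ({1,-1} : Set ℝ).encard := Set.encard_prod
    _ ≤ 2*2 := mul_le_mul' h2 h2
    _ = 4 := by norm_num

lemma pm_of_sq {t : ℝ} (h : t^2 = 1) : t ∈ ({1,-1} : Set ℝ) := by
  have : (t-1)*(t+1) = 0 := by linear_combination h
  rcases mul_eq_zero.mp this with h | h
  · left; linarith
  · right; simp only [Set.mem_singleton_iff]; linarith

lemma cover_zero (h0 : 0 < e) (h1e : e < 1) (hr : 0 < r)
    (h1 : A1^2+B1^2+n1^2 = 1) (h2 : A2^2+B2^2+n2^2 = 1) (h3 : A1*A2+B1*B2+n1*n2 = 0)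
    {c x y : ℝ} (hcs : c^2+(0:ℝ)^2 = 1) (hxy : x^2+y^2 = 1)
    (h : stat p e r A1 A2 B1 B2 c 0 x y)
    (hα : (c*A1+0*A2)*x+(c*B1+0*B2)*y ≠ 0) :
    n1*n2 = 0 ∧ n1^2 ≠ 1 ∧ (pt F u v p e c 0, cp F a b r x y) ∈ S0 F u v a b p e r A1 B1 n1 := by
  have hrel := stat_rel h1 h2 h3 hcs hxy h
  have hsq := stat_sq h1 h2 h3 hcs hxy h
  have hx := stat_x hxy h
  have hy := stat_y hxy h
  have hc2 : c^2 = 1 := by linarith
  set α := (c*A1+0*A2)*x+(c*B1+0*B2)*y with hαd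
  have hα2 : α^2 = 1-n1^2 := by rw [hsq]; linear_combination (-n1^2)*hc2
  have hw : 0 < 1+e*c := by
    have : -1 ≤ c := by nlinarith
    nlinarith
  have hne : n1^2 ≠ 1 := by
    intro h; rw [h, sub_self] at hα2; exact hα (pow_eq_zero_iff (two_ne_zero) |>.mp hα2)
  refine ⟨?_, hne, ?_⟩
  · unfold KK at hrel
    have : r*(1+e*c)^2*(n1*n2) = 0 := by
      linear_combination hrel-r*(1+e*c)^2*(n1*n2)*hc2
    have hne' : r*(1+e*c)^2 ≠ 0 := by positivity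
    exact (mul_eq_zero.mp this).resolve_left hne'
  · have hpos : 0 < 1-n1^2 := by rw [← hα2]; positivity
    have hS : 0 < √(1-n1^2) := sqrt_pos.mpr hpos
    have hSS : √(1-n1^2)^2 = 1-n1^2 := sq_sqrt hpos.le
    refine ⟨(c, α/√(1-n1^2)), ⟨pm_of_sq hc2, pm_of_sq ?_⟩, ?_⟩
    · rw [div_pow, hSS, hα2, div_self hpos.ne']
    · simp only
      have e0 : α/√(1-n1^2)*√(1-n1^2) = α := by field_simp
      rw [e0]
      have e1 : c*A1/α = x := by rw [div_eq_iff hα]; linarith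
      have e2 : c*B1/α = y := by rw [div_eq_iff hα]; linarith
      rw [e1, e2]

/-- stationary pairs over the axis of the circle. -/
noncomputable def Sz (F u v a b : V) (p e r A1 A2 B1 B2 n1 n2 : ℝ) : Set (V × V) :=
  (fun q : ℝ × ℝ => (pt F u v p e (q.1*n1) (q.1*n2),
    cp F a b r
      (p*e*(q.1*n2)/(r*(1+e*(q.1*n1))^2)*(A2*(q.1*n1)-A1*(q.1*n2))
        -q.2*√(1-(p*e*(q.1*n2)/(r*(1+e*(q.1*n1))^2))^2)*(B2*(q.1*n1)-B1*(q.1*n2)))
      (p*e*(q.1*n2)/(r*(1+e*(q.1*n1))^2)*(B2*(q.1*n1)-B1*(q.1*n2))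
        +q.2*√(1-(p*e*(q.1*n2)/(r*(1+e*(q.1*n1))^2))^2)*(A2*(q.1*n1)-A1*(q.1*n2)))))
    '' (({1,-1} : Set ℝ) ×ˢ ({1,-1} : Set ℝ))

lemma cover_axis (h0 : 0 < e) (h1e : e < 1) (hr : 0 < r)
    (h1 : A1^2+B1^2+n1^2 = 1) (h2 : A2^2+B2^2+n2^2 = 1) (h3 : A1*A2+B1*B2+n1*n2 = 0)
    (hν : n1^2+n2^2 ≤ 1)
    {c s x y : ℝ} (hcs : c^2+s^2 = 1) (hxy : x^2+y^2 = 1)
    (h : stat p e r A1 A2 B1 B2 c s x y)
    (hα : (c*A1+s*A2)*x+(c*B1+s*B2)*y = 0) :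
    n1^2+n2^2 = 1 ∧
      (pt F u v p e c s, cp F a b r x y) ∈ Sz F u v a b p e r A1 A2 B1 B2 n1 n2 := by
  have hsq := stat_sq h1 h2 h3 hcs hxy h
  rw [hα] at hsq
  have hL2 : (n1*c+n2*s)^2 = 1 := by linarith [hsq]
  have hsum : (n1*c+n2*s)^2+(n2*c-n1*s)^2 = n1^2+n2^2 := by
    linear_combination (n1^2+n2^2)*hcs
  have hM2 : (n2*c-n1*s)^2 = 0 := by nlinarith [sq_nonneg (n2*c-n1*s)]
  have hM : n2*c-n1*s = 0 := pow_eq_zero_iff (two_ne_zero) |>.mp hM2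
  have hν1 : n1^2+n2^2 = 1 := by rw [← hsum, hL2, hM2]; norm_num
  refine ⟨hν1, ?_⟩
  set l := n1*c+n2*s with hl
  have hc : c = l*n1 := by
    rw [hl]; linear_combination (-c)*hν1+n2*hM
  have hs : s = l*n2 := by
    rw [hl]; linear_combination (-s)*hν1-n1*hM
  have hw : 0 < 1+e*c := by
    have : -1 ≤ c := by nlinarith
    nlinarith
  obtain ⟨ha, hb⟩ := h
  rw [hα] at hb
  set A' := A2*c-A1*s with hA'
  set B' := B2*c-B1*s with hB'
  have hAB : A'^2+B'^2 = 1 := by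
    rw [hA', hB']
    linear_combination c^2*h2+s^2*h1-2*c*s*h3+hcs-hM2
  have hk : A'*x+B'*y = p*e*s/(r*(1+e*c)^2) := by
    rw [eq_div_iff (by positivity)]
    linear_combination -hb
  set k := p*e*s/(r*(1+e*c)^2) with hkd
  have hm2 : (A'*y-B'*x)^2 = 1-k^2 := by
    rw [← hk]; linear_combination (A'^2+B'^2)*hxy+hAB
  have hx' : x = k*A'-(A'*y-B'*x)*B' := by
    rw [← hk]; linear_combination (-x)*hAB
  have hy' : y = k*B'+(A'*y-B'*x)*A' := by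
    rw [← hk]; linear_combination (-y)*hAB
  have hnn : 0 ≤ 1-k^2 := by rw [← hm2]; positivity
  -- sign
  obtain ⟨σ, hσ, hσm⟩ : ∃ σ ∈ ({1,-1} : Set ℝ), A'*y-B'*x = σ*√(1-k^2) := by
    have hSS : √(1-k^2)^2 = 1-k^2 := sq_sqrt hnn
    have : (A'*y-B'*x-√(1-k^2))*(A'*y-B'*x+√(1-k^2)) = 0 := by linear_combination hm2-hSS
    rcases mul_eq_zero.mp this with h | h
    · exact ⟨1, by simp, by linarith⟩
    · exact ⟨-1, by simp, by linarith⟩
  refine ⟨(l, σ), ⟨pm_of_sq hL2, hσ⟩, ?_⟩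
  simp only
  rw [← hc, ← hs, ← hA', ← hB', ← hkd, ← hσm, ← hx', ← hy']

lemma cover (hp : 0 < p) (h0 : 0 < e) (h1e : e < 1) (hr : 0 < r)
    (h1 : A1^2+B1^2+n1^2 = 1) (h2 : A2^2+B2^2+n2^2 = 1) (h3 : A1*A2+B1*B2+n1*n2 = 0)
    (hν : n1^2+n2^2 ≤ 1) {q : V × V} (hq : q ∈ St F u v a b p e r A1 A2 B1 B2) :
    q ∈ Ψ F u v a b p e r A1 A2 B1 B2 n1 n2 '' G p e r n1 n2
    ∨ q ∈ Ψ F u (-v) a b p e r A1 (-A2) B1 (-B2) n1 (-n2) '' G p e r n1 (-n2)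
    ∨ (n1*n2 = 0 ∧ n1^2 ≠ 1 ∧ q ∈ S0 F u v a b p e r A1 B1 n1)
    ∨ (n1^2+n2^2 = 1 ∧ q ∈ Sz F u v a b p e r A1 A2 B1 B2 n1 n2) := by
  obtain ⟨c, s, x, y, hcs, hxy, h, rfl⟩ := hq
  by_cases hα : (c*A1+s*A2)*x+(c*B1+s*B2)*y = 0
  · right; right; right
    exact cover_axis h0 h1e hr h1 h2 h3 hν hcs hxy h hα
  · rcases lt_trichotomy s 0 with hs | hs | hs
    · right; left
      exact cover_neg hp h0 h1 h2 h3 hcs hxy h hs hα
    · subst hs
      right; right; left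
      exact cover_zero h0 h1e hr h1 h2 h3 hcs hxy h hα
    · left
      exact cover_pos hp h0 h1 h2 h3 hcs hxy h hs hα

lemma encard4 {W : Type*} {T A B C D : Set W} (h : ∀ q ∈ T, q ∈ A ∨ q ∈ B ∨ q ∈ C ∨ q ∈ D)
    {m n k l : ℕ∞} (hA : A.encard ≤ m) (hB : B.encard ≤ n) (hC : C.encard ≤ k) (hD : D.encard ≤ l) :
    T.encard ≤ m+(n+(k+l)) := by
  have hsub : T ⊆ A ∪ (B ∪ (C ∪ D)) := fun q hq => h q hq
  refine (Set.encard_le_encard hsub).trans ((Set.encard_union_le _ _).trans (add_le_add hA ?_))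
  refine (Set.encard_union_le _ _).trans (add_le_add hB ?_)
  exact (Set.encard_union_le _ _).trans (add_le_add hC hD)

theorem St_le (hp : 0 < p) (h0 : 0 < e) (h1e : e < 1) (hr : 0 < r)
    (h1 : A1^2+B1^2+n1^2 = 1) (h2 : A2^2+B2^2+n2^2 = 1) (h3 : A1*A2+B1*B2+n1*n2 = 0)
    (hν : n1^2+n2^2 ≤ 1) : (St F u v a b p e r A1 A2 B1 B2).encard ≤ 10 := by
  have hc := fun q hq => cover (F := F) (u := u) (v := v) (a := a) (b := b) hp h0 h1e hr h1 h2 h3 hν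
    (q := q) hq
  have himg : ∀ (f : ℝ → V × V) (A : Set ℝ) (m : ℕ∞), A.encard ≤ m → (f '' A).encard ≤ m :=
    fun f A m h => (Set.encard_image_le f A).trans h
  have hempty : (∅ : Set (V × V)).encard ≤ 0 := by simp
  rcases hν.lt_or_eq with hlt | heq
  · -- oblique planes
    have hlt' : n1^2+(-n2)^2 < 1 := by rw [neg_sq]; exact hlt
    rcases lt_trichotomy (n1*n2) 0 with hP | hP | hP
    · have hc' : ∀ q ∈ St F u v a b p e r A1 A2 B1 B2,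
          q ∈ Ψ F u v a b p e r A1 A2 B1 B2 n1 n2 '' G p e r n1 n2
          ∨ q ∈ Ψ F u (-v) a b p e r A1 (-A2) B1 (-B2) n1 (-n2) '' G p e r n1 (-n2)
          ∨ q ∈ (∅ : Set (V × V)) ∨ q ∈ (∅ : Set (V × V)) := by
        intro q hq
        rcases hc q hq with h | h | ⟨h, _⟩ | ⟨h, _⟩
        · exact Or.inl h
        · exact Or.inr (Or.inl h)
        · exact absurd h hP.ne
        · exact absurd h hlt.ne
      refine (encard4 hc' (himg _ _ _ (G_neg hp h0 h1e hr hlt hP))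
        (himg _ _ _ (G_pos hp h0 h1e hr hlt' (by linarith))) hempty hempty).trans (by norm_num)
    · have hc' : ∀ q ∈ St F u v a b p e r A1 A2 B1 B2,
          q ∈ Ψ F u v a b p e r A1 A2 B1 B2 n1 n2 '' G p e r n1 n2
          ∨ q ∈ Ψ F u (-v) a b p e r A1 (-A2) B1 (-B2) n1 (-n2) '' G p e r n1 (-n2)
          ∨ q ∈ S0 F u v a b p e r A1 B1 n1 ∨ q ∈ (∅ : Set (V × V)) := by
        intro q hq
        rcases hc q hq with h | h | ⟨_, _, h⟩ | ⟨h, _⟩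
        · exact Or.inl h
        · exact Or.inr (Or.inl h)
        · exact Or.inr (Or.inr (Or.inl h))
        · exact absurd h hlt.ne
      refine (encard4 hc' (himg _ _ _ (G_zero hp h0 h1e hr hlt hP))
        (himg _ _ _ (G_zero hp h0 h1e hr hlt' (by linarith))) (enc_four _) hempty).trans (by norm_num)
    · have hc' : ∀ q ∈ St F u v a b p e r A1 A2 B1 B2,
          q ∈ Ψ F u v a b p e r A1 A2 B1 B2 n1 n2 '' G p e r n1 n2
          ∨ q ∈ Ψ F u (-v) a b p e r A1 (-A2) B1 (-B2) n1 (-n2) '' G p e r n1 (-n2)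
          ∨ q ∈ (∅ : Set (V × V)) ∨ q ∈ (∅ : Set (V × V)) := by
        intro q hq
        rcases hc q hq with h | h | ⟨h, _⟩ | ⟨h, _⟩
        · exact Or.inl h
        · exact Or.inr (Or.inl h)
        · exact absurd h hP.ne'
        · exact absurd h hlt.ne
      refine (encard4 hc' (himg _ _ _ (G_pos hp h0 h1e hr hlt hP))
        (himg _ _ _ (G_neg hp h0 h1e hr hlt' (by linarith))) hempty hempty).trans (by norm_num)
  · -- perpendicular planes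
    have heq' : n1^2+(-n2)^2 = 1 := by rw [neg_sq]; exact heq
    rcases lt_trichotomy (n1*n2) 0 with hP | hP | hP
    · have hn : n1 ≠ 0 := by rintro rfl; simp at hP
      have hc' : ∀ q ∈ St F u v a b p e r A1 A2 B1 B2,
          q ∈ Ψ F u v a b p e r A1 A2 B1 B2 n1 n2 '' G p e r n1 n2
          ∨ q ∈ Ψ F u (-v) a b p e r A1 (-A2) B1 (-B2) n1 (-n2) '' G p e r n1 (-n2)
          ∨ q ∈ (∅ : Set (V × V)) ∨ q ∈ Sz F u v a b p e r A1 A2 B1 B2 n1 n2 := by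
        intro q hq
        rcases hc q hq with h | h | ⟨h, _⟩ | ⟨_, h⟩
        · exact Or.inl h
        · exact Or.inr (Or.inl h)
        · exact absurd h hP.ne
        · exact Or.inr (Or.inr (Or.inr h))
      refine (encard4 hc' (himg _ _ _ (G_neg' hp h0 h1e hr heq hP))
        (himg _ _ _ (G_pos' hp h0 h1e hr heq' hn (by linarith))) hempty (enc_four _)).trans (by norm_num)
    · by_cases hn : n1 = 0
      · subst hn
        have hc' : ∀ q ∈ St F u v a b p e r A1 A2 B1 B2,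
            q ∈ Ψ F u v a b p e r A1 A2 B1 B2 0 n2 '' G p e r 0 n2
            ∨ q ∈ Ψ F u (-v) a b p e r A1 (-A2) B1 (-B2) 0 (-n2) '' G p e r 0 (-n2)
            ∨ q ∈ S0 F u v a b p e r A1 B1 0 ∨ q ∈ Sz F u v a b p e r A1 A2 B1 B2 0 n2 := by
          intro q hq
          rcases hc q hq with h | h | ⟨_, _, h⟩ | ⟨_, h⟩
          · exact Or.inl h
          · exact Or.inr (Or.inl h)
          · exact Or.inr (Or.inr (Or.inl h))
          · exact Or.inr (Or.inr (Or.inr h))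
        refine (encard4 hc' (himg _ _ _ (G_zero' hp h0 h1e hr heq))
          (himg _ _ _ (G_zero' hp h0 h1e hr heq')) (enc_four _) (enc_four _)).trans (by norm_num)
      · have hn2 : n2 = 0 := (mul_eq_zero.mp hP).resolve_left hn
        have hn1 : n1^2 = 1 := by rw [hn2] at heq; linarith
        have hc' : ∀ q ∈ St F u v a b p e r A1 A2 B1 B2,
            q ∈ Ψ F u v a b p e r A1 A2 B1 B2 n1 n2 '' G p e r n1 n2
            ∨ q ∈ Ψ F u (-v) a b p e r A1 (-A2) B1 (-B2) n1 (-n2) '' G p e r n1 (-n2)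
            ∨ q ∈ (∅ : Set (V × V)) ∨ q ∈ Sz F u v a b p e r A1 A2 B1 B2 n1 n2 := by
          intro q hq
          rcases hc q hq with h | h | ⟨_, h, _⟩ | ⟨_, h⟩
          · exact Or.inl h
          · exact Or.inr (Or.inl h)
          · exact absurd hn1 h
          · exact Or.inr (Or.inr (Or.inr h))
        refine (encard4 hc' (himg _ _ _ (G_pos' hp h0 h1e hr heq hn hP.ge))
          (himg _ _ _ (G_pos' hp h0 h1e hr heq' hn (by linarith))) hempty (enc_four _)).trans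
          (by norm_num)
    · have hn : n1 ≠ 0 := by rintro rfl; simp at hP
      have hc' : ∀ q ∈ St F u v a b p e r A1 A2 B1 B2,
          q ∈ Ψ F u v a b p e r A1 A2 B1 B2 n1 n2 '' G p e r n1 n2
          ∨ q ∈ Ψ F u (-v) a b p e r A1 (-A2) B1 (-B2) n1 (-n2) '' G p e r n1 (-n2)
          ∨ q ∈ (∅ : Set (V × V)) ∨ q ∈ Sz F u v a b p e r A1 A2 B1 B2 n1 n2 := by
        intro q hq
        rcases hc q hq with h | h | ⟨h, _⟩ | ⟨_, h⟩
        · exact Or.inl h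
        · exact Or.inr (Or.inl h)
        · exact absurd h hP.ne'
        · exact Or.inr (Or.inr (Or.inr h))
      refine (encard4 hc' (himg _ _ _ (G_pos' hp h0 h1e hr heq hn hP.le))
        (himg _ _ _ (G_neg' hp h0 h1e hr heq' (by linarith))) hempty (enc_four _)).trans (by norm_num)

end
end Pool.Agent.H225.Confocal
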