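import Mathlib

set_option autoImplicit false

namespace Pool.Agent.H225.Confocal

/-- the polynomial `E` in `a = ℓ`, `b = ℓ'`, `c = cos f`, `s = sin f`. -/
def EE (e dl a b c s : ℝ) : ℝ :=
  s*(1+2*e*c+e^2)*(1-a^2)^2-(1+e*c)*(c+e)*(a*b)*(1-a^2)-dl*s*(1+e*c)^2
def EEp (e dl a b c s : ℝ) : ℝ :=
  c*(1+2*e*c+e^2)*(1-a^2)^2+s*(-2*e*s)*(1-a^2)^2
    +s*(1+2*e*c+e^2)*(2*(1-a^2)*(-2*(a*b)))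
    -((-e*s)*(c+e)*(a*b)*(1-a^2)+(1+e*c)*(-s)*(a*b)*(1-a^2)
      +(1+e*c)*(c+e)*(b^2-a^2)*(1-a^2)+(1+e*c)*(c+e)*(a*b)*(-2*(a*b)))
    -dl*(c*(1+e*c)^2+s*(2*(1+e*c)*(-e*s)))
/-- `P = n₁ n₂`, `D = n₁² - n₂²`. -/
def T6 (e P D c s : ℝ) : ℝ := 2*P*(1+e^2+e*c*(2+s^2+2*s^4))-2*e*s^5*D
def KK (e a b c s : ℝ) : ℝ := e*s*(1-a^2)-(1+e*c)*(a*b)

lemma idB (e a b c s : ℝ) (h : s^2+c^2=1) :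
    s*EEp e (1-a^2-b^2) a b c s
      = 3/2*(1-a^2)*T6 e ((a^2-b^2)*s*c+a*b*(c^2-s^2)) ((a^2-b^2)*(c^2-s^2)-4*a*b*s*c) c s
        + 3*c*EE e (1-a^2-b^2) a b c s := by
  unfold EE EEp T6
  linear_combination ((-2)*e^2*a^2*c*s + (-2)*e^2*b^2*c*s + (2)*e^2*c*s + (3)*e*a^4*s^5 + (3)*e*a^4*s^3 + e*a^4*s + (6)*e*a^3*b*c*s^4 + (3)*e*a^3*b*c*s^2 + (3)*e*a^3*b*c + (-3)*e*a^2*b^2*s^5 + (-3)*e*a^2*b^2*s^3 + (-3)*e*a^2*b^2*s + (-3)*e*a^2*s^5 + (-3)*e*a^2*s^3 + (-1)*e*a^2*s + (-6)*e*a*b*c*s^4 + (-3)*e*a*b*c*s^2 + (-3)*e*a*b*c + (3)*e*b^2*s^5 + (3)*e*b^2*s^3 + e*b^2*s)*h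

lemma idA (e a b c s : ℝ) (h : s^2+c^2=1) :
    s*(1+e*c)*EEp e (1-a^2-b^2) a b c s
      = 3*(c*(1+e*c)-e*s^2)*EE e (1-a^2-b^2) a b c s+3*e*s^3*(KK e a b c s)^2
        +3*(1+e*c)^3*(1-a^2)*((a^2-b^2)*s*c+a*b*(c^2-s^2)) := by
  unfold EE EEp KK
  linear_combination ((3)*e^3*a^4*c^2*s + (-3)*e^3*a^4*s^3 + (3)*e^3*a^3*b*c^3 + (-6)*e^3*a^3*b*c*s^2 + (-3)*e^3*a^2*b^2*c^2*s + (-5)*e^3*a^2*c^2*s + (6)*e^3*a^2*s^3 + (-3)*e^3*a*b*c^3 + (6)*e^3*a*b*c*s^2 + e^3*b^2*c^2*s + (2)*e^3*c^2*s + (-3)*e^3*s^3 + (4)*e^2*a^4*c*s + (6)*e^2*a^3*b*c^2 + (-6)*e^2*a^3*b*s^2 + (-6)*e^2*a^2*b^2*c*s + (-6)*e^2*a^2*c*s + (-6)*e^2*a*b*c^2 + (6)*e^2*a*b*s^2 + (2)*e^2*b^2*c*s + (2)*e^2*c*s + e*a^4*s + (3)*e*a^3*b*c + (-3)*e*a^2*b^2*s + (-1)*e*a^2*s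 + (-3)*e*a*b*c + e*b^2*s)*h

lemma idI (e a b c s : ℝ) (h : s^2+c^2=1) :
    (1-a^2)*EEp e (1-a^2-b^2) a b c s
      = -3*(a*b)*EE e (1-a^2-b^2) a b c s
        +3*s*((1-a^2-b^2)*(1+e*c)*KK e a b c s-e*s*(1-a^2)^3) := by
  unfold EE EEp KK
  linear_combination ((-1)*e^2*a^4*c + (-1)*e^2*a^2*b^2*c + (2)*e^2*a^2*c + e^2*b^2*c + (-1)*e^2*c + (-1)*e*a^6 + (2)*e*a^4 + (-1)*e*a^2*b^2 + (-1)*e*a^2 + e*b^2)*h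

end Pool.Agent.H225.Confocal
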