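import Pool.Agent.H225.ConfocalCount

set_option autoImplicit false
open Real Set

namespace Pool.Agent.H225.Confocal

lemma enc_le (A : Set ℝ) (n : ℕ)
    (h : ∀ x : Fin (n+1) → ℝ, StrictMono x → (∀ i, x i ∈ A) → False) : A.encard ≤ n := by
  by_contra hc
  push Not at hc
  have h1 : ((n+1 : ℕ) : ℕ∞) ≤ A.encard := by
    have := Order.add_one_le_of_lt hc
    exact_mod_cast this
  obtain ⟨B, hB, hBc⟩ := Set.exists_subset_encard_eq h1
  have hfin : B.Finite := Set.finite_of_encard_eq_coe hBc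
  have hF : hfin.toFinset.card = n+1 := by
    have := hfin.encard_eq_coe_toFinset_card
    rw [hBc] at this
    exact_mod_cast this.symm
  refine h (hfin.toFinset.orderEmbOfFin hF) (hfin.toFinset.orderEmbOfFin hF).strictMono (fun i => ?_)
  exact hB ((hfin.mem_toFinset).mp (hfin.toFinset.orderEmbOfFin_mem hF i))

section
variable {e n1 n2 : ℝ}

/-- level set of `y₀` on `(0,π)`. -/
def lev (e n1 n2 κ : ℝ) : Set ℝ := {f | f ∈ Ioo 0 π ∧ Y e n1 n2 f = κ}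

lemma lev_pos (h0 : 0 < e) (h1 : e < 1) (hν : n1^2+n2^2 < 1) (hP : 0 < n1*n2) (κ : ℝ) :
    (lev e n1 n2 κ).encard ≤ 2 := by
  refine enc_le _ 2 (fun x hx hm => ?_)
  have h01 : x 0 < x 1 := hx (by decide)
  have h12 : x 1 < x 2 := hx (by decide)
  obtain ⟨a, ha, ha0⟩ := rolleY h0 hν (hm 0).1 (hm 1).1 h01 ((hm 0).2.trans (hm 1).2.symm)
  obtain ⟨b, hb, hb0⟩ := rolleY h0 hν (hm 1).1 (hm 2).1 h12 ((hm 1).2.trans (hm 2).2.symm)
  exact posA h0 h1 hν hP (mem_of (hm 0).1 (hm 1).1 (Ioo_subset_Icc_self ha))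
    (mem_of (hm 1).1 (hm 2).1 (Ioo_subset_Icc_self hb)) (ha.2.trans hb.1) ha0 hb0

lemma lev_neg (h0 : 0 < e) (hν : n1^2+n2^2 < 1) (hP : n1*n2 < 0) (κ : ℝ) :
    (lev e n1 n2 κ).encard ≤ 4 := by
  refine enc_le _ 4 (fun x hx hm => ?_)
  have h01 : x 0 < x 1 := hx (by decide)
  have h12 : x 1 < x 2 := hx (by decide)
  have h23 : x 2 < x 3 := hx (by decide)
  have h34 : x 3 < x 4 := hx (by decide)
  obtain ⟨a, ha, ha0⟩ := rolleY h0 hν (hm 0).1 (hm 1).1 h01 ((hm 0).2.trans (hm 1).2.symm)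
  obtain ⟨b, hb, hb0⟩ := rolleY h0 hν (hm 1).1 (hm 2).1 h12 ((hm 1).2.trans (hm 2).2.symm)
  obtain ⟨c, hc, hc0⟩ := rolleY h0 hν (hm 2).1 (hm 3).1 h23 ((hm 2).2.trans (hm 3).2.symm)
  obtain ⟨d, hd, hd0⟩ := rolleY h0 hν (hm 3).1 (hm 4).1 h34 ((hm 3).2.trans (hm 4).2.symm)
  have ma := mem_of (hm 0).1 (hm 1).1 (Ioo_subset_Icc_self ha)
  have mb := mem_of (hm 1).1 (hm 2).1 (Ioo_subset_Icc_self hb)
  have mc := mem_of (hm 2).1 (hm 3).1 (Ioo_subset_Icc_self hc)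
  have md := mem_of (hm 3).1 (hm 4).1 (Ioo_subset_Icc_self hd)
  obtain ⟨u, hu, hu0⟩ := rolleE hν ma mb (ha.2.trans hb.1) ha0 hb0
  obtain ⟨v, hv, hv0⟩ := rolleE hν mb mc (hb.2.trans hc.1) hb0 hc0
  obtain ⟨w, hw, hw0⟩ := rolleE hν mc md (hc.2.trans hd.1) hc0 hd0
  exact noT3 h0 hP (mem_of ma mb (Ioo_subset_Icc_self hu)) (mem_of mb mc (Ioo_subset_Icc_self hv))
    (mem_of mc md (Ioo_subset_Icc_self hw)) (hu.2.trans hv.1) (hv.2.trans hw.1) hu0 hv0 hw0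

lemma K_neg_of (h0 : 0 < e) (h1 : e < 1) (hν : n1^2+n2^2 < 1) {f κ : ℝ} (hκ : κ < 0)
    (hf : f ∈ Ioo 0 π) (h : Y e n1 n2 f = κ) : K e n1 n2 f < 0 := by
  by_contra hK
  push Not at hK
  have hs := s_pos hf
  have hw := w_pos h0 h1 f
  have : 0 ≤ Y e n1 n2 f := by
    unfold Y; positivity
  linarith

lemma lev_neg' (h0 : 0 < e) (h1 : e < 1) (hν : n1^2+n2^2 < 1) (hP : n1*n2 < 0) {κ : ℝ}
    (hκ : κ < 0) : (lev e n1 n2 κ).encard ≤ 2 := by
  refine enc_le _ 2 (fun x hx hm => ?_)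
  have h01 : x 0 < x 1 := hx (by decide)
  have h12 : x 1 < x 2 := hx (by decide)
  obtain ⟨a, ha, ha0⟩ := rolleY h0 hν (hm 0).1 (hm 1).1 h01 ((hm 0).2.trans (hm 1).2.symm)
  obtain ⟨b, hb, hb0⟩ := rolleY h0 hν (hm 1).1 (hm 2).1 h12 ((hm 1).2.trans (hm 2).2.symm)
  have ma := mem_of (hm 0).1 (hm 1).1 (Ioo_subset_Icc_self ha)
  have mb := mem_of (hm 1).1 (hm 2).1 (Ioo_subset_Icc_self hb)
  refine noE2neg h0 h1 hν ma mb (ha.2.trans hb.1) (fun z hz => ?_) ha0 hb0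
  exact K_conv h0 h1 hP (hm 0).1 (hm 2).1 (lt_of_lt_of_le ha.1 hz.1) (lt_of_le_of_lt hz.2 hb.2)
    (K_neg_of h0 h1 hν hκ (hm 0).1 (hm 0).2) (K_neg_of h0 h1 hν hκ (hm 2).1 (hm 2).2)

/-! The case `n₁ n₂ = 0`. -/

lemma E_nozero_n2 (h0 : 0 < e) (h1 : e < 1) (hν : n1^2+(0:ℝ)^2 < 1) {x : ℝ} (hx : x ∈ Ioo 0 π)
    (hE : E e n1 0 x = 0) : False := by
  have sx := s_pos hx
  rcases eq_or_ne n1 0 with rfl | hn
  · have : E e 0 0 x = e^2*(sin x)^3 := by
      unfold E EE L M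
      have q := sin_sq_add_cos_sq x
      have q2 : cos x^2 = 1-sin x^2 := by linarith
      linear_combination (-(e^2*sin x))*q2
    rw [this] at hE
    have : 0 < e^2*(sin x)^3 := by positivity
    linarith
  · obtain ⟨y, hy1, hy2⟩ := exists_between hx.2
    have hy : y ∈ Ioo 0 π := ⟨hx.1.trans hy1, hy2⟩
    have sy := s_pos hy
    have key1 : E e n1 0 y < 0 := by
      by_contra h
      push Not at h
      have hTn : ∀ z ∈ Ioo 0 π, (3/2*(1-(L n1 0 z)^2)*T e n1 0 z)/(sin z)^4 < 0 := by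
        intro z hz
        have sz := s_pos hz
        have hQ := Q_pos hν z
        have : T e n1 0 z < 0 := by
          have hT : T e n1 0 z = -(2*e*(sin z)^5*n1^2) := by unfold T T6; ring
          rw [hT]
          have : 0 < 2*e*(sin z)^5*n1^2 := by positivity
          linarith
        apply div_neg_of_neg_of_pos
        · exact mul_neg_of_pos_of_neg (by positivity) this
        · positivity
      rcases h.lt_or_eq with h | h
      · obtain ⟨z, hz, hz0⟩ := mvt_pos hy1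
          (fun z hz => hEs (e := e) (n1 := n1) (n2 := 0) (mem_of hx hy hz))
          (by simp only [hE]; rw [zero_div]; positivity)
        exact absurd hz0 (not_lt.mpr (hTn z (mem_of hx hy (Ioo_subset_Icc_self hz))).le)
      · obtain ⟨z, hz, hz0⟩ := rolle hy1
          (fun z hz => hEs (e := e) (n1 := n1) (n2 := 0) (mem_of hx hy hz))
          (by simp only [hE, ← h, zero_div])
        exact absurd hz0 (hTn z (mem_of hx hy (Ioo_subset_Icc_self hz))).ne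
    have wy := w_pos h0 h1 y
    obtain ⟨z, hz, hz0⟩ := mvt_neg hy1
      (fun z hz => hEA (e := e) (n1 := n1) (n2 := 0) h0 h1 (mem_of hx hy hz))
      (by simp only [hE]; rw [zero_div]; exact div_neg_of_neg_of_pos key1 (by positivity))
    have mz := mem_of hx hy (Ioo_subset_Icc_self hz)
    have sz := s_pos mz
    have wz := w_pos h0 h1 z
    have : 0 ≤ (3*e*(sin z)^3*(K e n1 0 z)^2+3*(1+e*cos z)^3*(1-(L n1 0 z)^2)*(n1*0))
      /((sin z)^4*(1+e*cos z)^4) := by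
      rw [mul_zero, mul_zero, add_zero]
      positivity
    linarith

lemma lev_n2 (h0 : 0 < e) (h1 : e < 1) (hν : n1^2+(0:ℝ)^2 < 1) (κ : ℝ) :
    (lev e n1 0 κ).encard ≤ 1 := by
  refine enc_le _ 1 (fun x hx hm => ?_)
  have h01 : x 0 < x 1 := hx (by decide)
  obtain ⟨a, ha, ha0⟩ := rolleY h0 hν (hm 0).1 (hm 1).1 h01 ((hm 0).2.trans (hm 1).2.symm)
  exact E_nozero_n2 h0 h1 hν (mem_of (hm 0).1 (hm 1).1 (Ioo_subset_Icc_self ha)) ha0

lemma T_pos_n1 (h0 : 0 < e) (hn : n2 ≠ 0) {z : ℝ} (hz : z ∈ Ioo 0 π) : 0 < T e 0 n2 z := by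
  have sz := s_pos hz
  have hT : T e 0 n2 z = 2*e*(sin z)^5*n2^2 := by unfold T T6; ring
  rw [hT]; positivity

lemma lev_n1 (h0 : 0 < e) (hν : (0:ℝ)^2+n2^2 < 1) (hn : n2 ≠ 0) (κ : ℝ) :
    (lev e 0 n2 κ).encard ≤ 2 := by
  refine enc_le _ 2 (fun x hx hm => ?_)
  have h01 : x 0 < x 1 := hx (by decide)
  have h12 : x 1 < x 2 := hx (by decide)
  obtain ⟨a, ha, ha0⟩ := rolleY h0 hν (hm 0).1 (hm 1).1 h01 ((hm 0).2.trans (hm 1).2.symm)
  obtain ⟨b, hb, hb0⟩ := rolleY h0 hν (hm 1).1 (hm 2).1 h12 ((hm 1).2.trans (hm 2).2.symm)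
  have ma := mem_of (hm 0).1 (hm 1).1 (Ioo_subset_Icc_self ha)
  have mb := mem_of (hm 1).1 (hm 2).1 (Ioo_subset_Icc_self hb)
  obtain ⟨z, hz, hz0⟩ := rolleE hν ma mb (ha.2.trans hb.1) ha0 hb0
  exact absurd hz0 (T_pos_n1 h0 hn (mem_of ma mb (Ioo_subset_Icc_self hz))).ne'

lemma lev_n1' (h0 : 0 < e) (h1 : e < 1) (hν : (0:ℝ)^2+n2^2 < 1) (hn : n2 ≠ 0) {κ : ℝ} (hκ : κ < 0) :
    (lev e 0 n2 κ).encard ≤ 1 := by
  refine enc_le _ 1 (fun x hx hm => ?_)
  have h01 : x 0 < x 1 := hx (by decide)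
  obtain ⟨a, ha, ha0⟩ := rolleY h0 hν (hm 0).1 (hm 1).1 h01 ((hm 0).2.trans (hm 1).2.symm)
  have ma := mem_of (hm 0).1 (hm 1).1 (Ioo_subset_Icc_self ha)
  have my := (hm 1).1
  have sy := s_pos my
  have hKy := K_neg_of h0 h1 hν hκ (hm 1).1 (hm 1).2
  have hQy := Q_pos hν (x 1)
  have hSy : 0 < √(1-(L 0 n2 (x 1))^2) := sqrt_pos.mpr hQy
  -- `K < 0` on `[a, x 1]`
  have hK : ∀ z ∈ Icc a (x 1), K e 0 n2 z < 0 := by
    intro z hz
    rcases hz.2.lt_or_eq with h | h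
    · by_contra hKz
      push Not at hKz
      have mz : z ∈ Ioo 0 π := mem_of ma my hz
      have sz := s_pos mz
      obtain ⟨t, ht, ht0⟩ := mvt_neg h (fun t ht => hKs (e := e) (n1 := 0) (n2 := n2) (mem_of mz my ht))
        (lt_of_lt_of_le (div_neg_of_neg_of_pos hKy sy) (div_nonneg hKz sz.le))
      have mt := mem_of mz my (Ioo_subset_Icc_self ht)
      have st := s_pos mt
      have : J e 0 n2 t = (sin t)^3*n2^2 := by unfold J J6; ring
      rw [this] at ht0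
      have : 0 < (sin t)^3*n2^2/(sin t)^2 := by positivity
      linarith
    · rw [h]; exact hKy
  -- `E(x 1) > 0`
  have hE1 : 0 < E e 0 n2 (x 1) := by
    by_contra h
    push Not at h
    have hTp : ∀ z ∈ Ioo 0 π, 0 < (3/2*(1-(L 0 n2 z)^2)*T e 0 n2 z)/(sin z)^4 := by
      intro z hz
      have sz := s_pos hz
      have hQ := Q_pos hν z
      have := T_pos_n1 h0 hn hz
      positivity
    rcases h.lt_or_eq with h | h
    · obtain ⟨z, hz, hz0⟩ := mvt_neg ha.2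
        (fun z hz => hEs (e := e) (n1 := 0) (n2 := n2) (mem_of ma my hz))
        (by simp only [ha0]; rw [zero_div]; exact div_neg_of_neg_of_pos h (by positivity))
      exact absurd hz0 (not_lt.mpr (hTp z (mem_of ma my (Ioo_subset_Icc_self hz))).le)
    · obtain ⟨z, hz, hz0⟩ := rolle ha.2
        (fun z hz => hEs (e := e) (n1 := 0) (n2 := n2) (mem_of ma my hz))
        (by simp only [ha0, h, zero_div])
      exact absurd hz0 (hTp z (mem_of ma my (Ioo_subset_Icc_self hz))).ne'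
  obtain ⟨z, hz, hz0⟩ := mvt_pos ha.2 (fun z _ => hEI (e := e) hν z)
    (by simp only [ha0]; rw [zero_div]; positivity)
  have hz' := mem_of ma my (Ioo_subset_Icc_self hz)
  have hs := s_pos hz'
  have hQ := Q_pos hν z
  have hw := w_pos h0 h1 z
  have hS : 0 < √(1-(L 0 n2 z)^2) := sqrt_pos.mpr hQ
  have hKz := hK z (Ioo_subset_Icc_self hz)
  have hd : 0 < 1-(0:ℝ)^2-n2^2 := by linarith
  have a1 : (1-(0:ℝ)^2-n2^2)*(1+e*cos z)*K e 0 n2 z < 0 := mul_neg_of_pos_of_neg (by positivity) hKz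
  have a2 : 0 < e*sin z*(1-(L 0 n2 z)^2)^3 := by positivity
  have : 3*sin z*((1-(0:ℝ)^2-n2^2)*(1+e*cos z)*K e 0 n2 z-e*sin z*(1-(L 0 n2 z)^2)^3)
      /(√(1-(L 0 n2 z)^2))^5 < 0 := by
    apply div_neg_of_neg_of_pos
    · apply mul_neg_of_pos_of_neg (by positivity); linarith
    · positivity
  linarith

end
end Pool.Agent.H225.Confocal
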