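import Pool.Agent.H225.ConfocalLevel

set_option autoImplicit false
open Real Set

namespace Pool.Agent.H225.Confocal

section
variable {e n1 n2 : ℝ}

/-- perpendicular planes: `y₁ = w (ℓ + e n₁)/(e s)`. -/
noncomputable def Z (e n1 n2 f : ℝ) : ℝ := ((1+e*cos f)*(L n1 n2 f+e*n1))/(e*sin f)

noncomputable def F (e n1 n2 f : ℝ) : ℝ := n1*(1+e^2+3*e*cos f-e*(cos f)^3)+n2*e*(sin f)^3

lemma hZ (h0 : 0 < e) {f : ℝ} (hf : f ∈ Ioo 0 π) :
    HasDerivAt (Z e n1 n2) (-F e n1 n2 f/(e*(sin f)^2)) f := by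
  have hs := s_pos hf
  have hN := (hW e f).mul ((hL n1 n2 f).add_const (e*n1))
  have hD := (hasDerivAt_sin f).const_mul e
  have h := hN.div hD (by positivity)
  have hfun : Z e n1 n2 = (fun x => ((1+e*cos x)*(L n1 n2 x+e*n1))/(e*sin x)) := by
    funext x; rfl
  rw [hfun]
  refine HasDerivAt.congr_deriv h ?_
  simp only [Pi.mul_apply]
  have q := sin_sq_add_cos_sq f
  unfold F L M
  rw [div_eq_div_iff (by positivity) (by positivity)]
  linear_combination (e^2*sin f^2)*((-1)*e^2*n1 + (-2)*e*n1*cos f + (-1)*n1)*q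

lemma hFs {f : ℝ} (hf : f ∈ Ioo 0 π) : HasDerivAt (fun x => F e n1 n2 x/(sin x)^3)
    (-(3*n1*(cos f+e)*(1+e*cos f))/(sin f)^4) f := by
  have hs := s_pos hf
  have hc' := hasDerivAt_cos f
  have hs' := hasDerivAt_sin f
  have hF : HasDerivAt (F e n1 n2) (n1*(3*e*(-sin f)-e*(3*(cos f)^2*(-sin f)))
      +n2*e*(3*(sin f)^2*cos f)) f := by
    have h1 := ((((hc'.const_mul (3*e)).const_add (1+e^2)).sub ((hc'.pow 3).const_mul e)).const_mul n1).add
      ((hs'.pow 3).const_mul (n2*e))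
    have hfun : F e n1 n2 = (fun x => n1*(1+e^2+3*e*cos x-e*(cos x)^3)+n2*e*(sin x)^3) := by
      funext x; rfl
    rw [hfun]
    refine HasDerivAt.congr_deriv h1 ?_
    norm_num
  have h := hF.div (hs'.pow 3) (by simp only [Pi.pow_apply]; positivity)
  refine HasDerivAt.congr_deriv h ?_
  simp only [Pi.pow_apply]
  have q := sin_sq_add_cos_sq f
  unfold F
  rw [div_eq_div_iff (by positivity) (by positivity)]
  norm_num
  linear_combination (sin f^6)*((3)*e*n1*cos f^2 + (-3)*e*n1)*q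

lemma rolleZ (h0 : 0 < e) {x y : ℝ} (hx : x ∈ Ioo 0 π) (hy : y ∈ Ioo 0 π)
    (hxy : x < y) (he : Z e n1 n2 x = Z e n1 n2 y) : ∃ z ∈ Ioo x y, F e n1 n2 z = 0 := by
  obtain ⟨z, hz, h⟩ := rolle hxy (fun z hz => hZ h0 (mem_of hx hy hz)) he
  refine ⟨z, hz, ?_⟩
  have hs := s_pos (mem_of hx hy (Ioo_subset_Icc_self hz))
  rw [div_eq_zero_iff] at h
  rcases h with h | h
  · linarith
  · exfalso
    have : 0 < e*(sin z)^2 := by positivity
    linarith

lemma q1_pos (h0 : 0 < e) (h1 : e < 1) (f : ℝ) : 0 < 1+e^2+3*e*cos f-e*(cos f)^3 := by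
  have a := neg_one_le_cos f
  have b := cos_le_one f
  have : (1-e)^2 ≤ 1+e^2+3*e*cos f-e*(cos f)^3 := by
    have h2 : 0 ≤ e*((cos f+1)^2*(2-cos f)) := by
      apply mul_nonneg h0.le; apply mul_nonneg (sq_nonneg _); linarith
    nlinarith
  have : 0 < (1-e)^2 := by
    have : 0 < 1-e := by linarith
    positivity
  linarith

/-- level set on `(0,π)` in the perpendicular case. -/
def levZ (e n1 n2 κ : ℝ) : Set ℝ := {f | f ∈ Ioo 0 π ∧ Z e n1 n2 f = κ}

lemma levZ_one (h0 : 0 < e) (h1 : e < 1) (hn : n1 ≠ 0) (hP : 0 ≤ n1*n2) (κ : ℝ) :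
    (levZ e n1 n2 κ).encard ≤ 1 := by
  refine enc_le _ 1 (fun x hx hm => ?_)
  have h01 : x 0 < x 1 := hx (by decide)
  obtain ⟨a, ha, ha0⟩ := rolleZ h0 (hm 0).1 (hm 1).1 h01 ((hm 0).2.trans (hm 1).2.symm)
  have ma := mem_of (hm 0).1 (hm 1).1 (Ioo_subset_Icc_self ha)
  have sa := s_pos ma
  have qa := q1_pos h0 h1 a
  have : 0 < n1*F e n1 n2 a := by
    have : n1*F e n1 n2 a = n1^2*(1+e^2+3*e*cos a-e*(cos a)^3)+(n1*n2)*(e*(sin a)^3) := by
      unfold F; ring
    rw [this]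
    have h3 : 0 < n1^2 := by positivity
    have h4 : 0 ≤ (n1*n2)*(e*(sin a)^3) := by positivity
    have h5 : 0 < n1^2*(1+e^2+3*e*cos a-e*(cos a)^3) := by positivity
    linarith
  rw [ha0, mul_zero] at this
  exact lt_irrefl _ this

lemma levZ_three (h0 : 0 < e) (h1 : e < 1) (hn : n1 ≠ 0) (κ : ℝ) :
    (levZ e n1 n2 κ).encard ≤ 3 := by
  refine enc_le _ 3 (fun x hx hm => ?_)
  have h01 : x 0 < x 1 := hx (by decide)
  have h12 : x 1 < x 2 := hx (by decide)
  have h23 : x 2 < x 3 := hx (by decide)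
  obtain ⟨a, ha, ha0⟩ := rolleZ h0 (hm 0).1 (hm 1).1 h01 ((hm 0).2.trans (hm 1).2.symm)
  obtain ⟨b, hb, hb0⟩ := rolleZ h0 (hm 1).1 (hm 2).1 h12 ((hm 1).2.trans (hm 2).2.symm)
  obtain ⟨c, hc, hc0⟩ := rolleZ h0 (hm 2).1 (hm 3).1 h23 ((hm 2).2.trans (hm 3).2.symm)
  have ma := mem_of (hm 0).1 (hm 1).1 (Ioo_subset_Icc_self ha)
  have mb := mem_of (hm 1).1 (hm 2).1 (Ioo_subset_Icc_self hb)
  have mc := mem_of (hm 2).1 (hm 3).1 (Ioo_subset_Icc_self hc)
  have key : ∀ {x y : ℝ}, x ∈ Ioo 0 π → y ∈ Ioo 0 π → x < y → F e n1 n2 x = 0 →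
      F e n1 n2 y = 0 → ∃ z ∈ Ioo x y, cos z+e = 0 := by
    intro x y hx hy hxy hFx hFy
    obtain ⟨z, hz, h⟩ := rolle hxy (fun z hz => hFs (e := e) (n1 := n1) (n2 := n2) (mem_of hx hy hz))
      (by simp only [hFx, hFy, zero_div])
    refine ⟨z, hz, ?_⟩
    have hs := s_pos (mem_of hx hy (Ioo_subset_Icc_self hz))
    have hw := w_pos h0 h1 z
    rw [div_eq_zero_iff] at h
    rcases h with h | h
    · rw [neg_eq_zero] at h
      rcases mul_eq_zero.mp h with h | h
      · rcases mul_eq_zero.mp h with h | h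
        · exfalso; apply hn; linarith
        · exact h
      · exfalso; linarith
    · exfalso
      have : 0 < (sin z)^4 := by positivity
      linarith
  obtain ⟨u, hu, hu0⟩ := key ma mb (ha.2.trans hb.1) ha0 hb0
  obtain ⟨v, hv, hv0⟩ := key mb mc (hb.2.trans hc.1) hb0 hc0
  have mu := mem_of ma mb (Ioo_subset_Icc_self hu)
  have mv := mem_of mb mc (Ioo_subset_Icc_self hv)
  have huv : u < v := hu.2.trans hv.1
  have : cos v < cos u := cos_lt_cos_of_nonneg_of_le_pi mu.1.le mv.2.le huv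
  linarith

/-- opposite signs, level of the sign of `n₁`. -/
lemma levZ_sign (h0 : 0 < e) (h1 : e < 1) (hP : n1*n2 < 0) {κ : ℝ} (hκ : 0 < n1*κ) :
    (levZ e n1 n2 κ).encard ≤ 1 := by
  have hn : n1 ≠ 0 := by rintro rfl; simp at hP
  refine enc_le _ 1 (fun x hx hm => ?_)
  have h01 : x 0 < x 1 := hx (by decide)
  obtain ⟨a, ha, ha0⟩ := rolleZ h0 (hm 0).1 (hm 1).1 h01 ((hm 0).2.trans (hm 1).2.symm)
  have ma := mem_of (hm 0).1 (hm 1).1 (Ioo_subset_Icc_self ha)
  have sa := s_pos ma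
  have my := (hm 1).1
  have sy := s_pos my
  have wy := w_pos h0 h1 (x 1)
  -- positivity at `x 1`
  have hy : 0 < n1^2*(cos (x 1)+e)+n1*n2*sin (x 1) := by
    have h := (hm 1).2
    unfold Z L at h
    rw [div_eq_iff (by positivity)] at h
    have h2 : (1+e*cos (x 1))*(n1^2*(cos (x 1)+e)+n1*n2*sin (x 1)) = (n1*κ)*(e*sin (x 1)) := by
      linear_combination n1*h
    have h3 : 0 < (n1*κ)*(e*sin (x 1)) := by positivity
    rw [← h2] at h3
    exact (mul_pos_iff_of_pos_left wy).mp h3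
  -- positivity at `a`
  have hca : cos (x 1) < cos a := cos_lt_cos_of_nonneg_of_le_pi ma.1.le my.2.le ha.2
  have hsub : 0 < sin (x 1-a) := sin_pos_of_pos_of_lt_pi (by linarith [ha.2]) (by linarith [ma.1, my.2])
  have ha1 : 0 < n1^2*(cos a+e)+n1*n2*sin a := by
    -- multiply: (cos a+e) sin y - (cos y+e) sin a > 0
    have h5 : 0 < (cos a+e)*sin (x 1)-(cos (x 1)+e)*sin a := by
      rw [sin_sub] at hsub
      have : 0 < sin (x 1)*cos a-cos (x 1)*sin a+e*(sin (x 1)-sin a) := by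
        -- write with half angles
        have hA := w_pos h0 h1 ((x 1+a)/2)
        have e1 : sin (x 1)-sin a = 2*sin ((x 1-a)/2)*cos ((x 1+a)/2) := sin_sub_sin _ _
        have e2 : sin (x 1)*cos a-cos (x 1)*sin a = 2*sin ((x 1-a)/2)*cos ((x 1-a)/2) := by
          rw [← sin_sub, ← sin_two_mul]; congr 1; ring
        have hs2 : 0 < sin ((x 1-a)/2) :=
          sin_pos_of_pos_of_lt_pi (by linarith [ha.2]) (by linarith [ma.1, my.2, pi_pos])
        have hcc : 0 < cos ((x 1-a)/2)+cos ((x 1+a)/2) := by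
          rw [cos_add_cos]
          have r1 : ((x 1-a)/2+(x 1+a)/2)/2 = x 1/2 := by ring
          have r2 : ((x 1-a)/2-(x 1+a)/2)/2 = -(a/2) := by ring
          rw [r1, r2, cos_neg]
          have := cos_pos_of_mem_Ioo (x := x 1/2) ⟨by linarith [my.1, pi_pos], by linarith [my.2]⟩
          have := cos_pos_of_mem_Ioo (x := a/2) ⟨by linarith [ma.1, pi_pos], by linarith [ma.2]⟩
          positivity
        have hcm : 0 < cos ((x 1-a)/2) :=
          cos_pos_of_mem_Ioo ⟨by linarith [ha.2, pi_pos], by linarith [ma.1, my.2]⟩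
        rw [e1, e2]
        have : 0 < cos ((x 1-a)/2)+e*cos ((x 1+a)/2) := by
          rcases le_or_gt 0 (cos ((x 1+a)/2)) with h | h
          · have := mul_nonneg h0.le h; linarith
          · nlinarith
        have := mul_pos hs2 this
        linarith
      linarith
    have h6 : 0 < (n1^2*(cos a+e)+n1*n2*sin a)*sin (x 1) := by
      have hnn : 0 < n1^2 := by positivity
      have := mul_pos hnn h5
      have := mul_pos hy sa
      nlinarith
    exact (mul_pos_iff_of_pos_right sy).mp h6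
  have wa := w_pos h0 h1 a
  have : 0 < n1*F e n1 n2 a := by
    have q := sin_sq_add_cos_sq a
    have h7 : n1*F e n1 n2 a = n1^2*(1+e*cos a)^2+(n1^2*(cos a+e)+n1*n2*sin a)*(e*(sin a)^2) := by
      unfold F
      have q2 : sin a^2 = 1-cos a^2 := by linarith
      linear_combination (-(n1^2*e*(cos a+e)))*q2
    rw [h7]
    positivity
  rw [ha0, mul_zero] at this
  exact lt_irrefl _ this

end
end Pool.Agent.H225.Confocal
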