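import Pool.Agent.H225.ConfocalAn

set_option autoImplicit false
open Real Set

namespace Pool.Agent.H225.Confocal

def KKp (e a b c s : ℝ) : ℝ :=
  e*c*(1-a^2)+e*s*(-2*(a*b))-((-e*s)*(a*b)+(1+e*c)*(b^2-a^2))

lemma idY (e a b c s : ℝ) (h : s^2+c^2=1) :
    ((-e*s)*KK e a b c s+(1+e*c)*KKp e a b c s)*s*(1-a^2)
      -(1+e*c)*KK e a b c s*(c*(1-a^2)-s*(a*b)) = -EE e (1-a^2-b^2) a b c s := by
  unfold EE KK KKp
  linear_combination ((-1)*e^2*a^4*s + (-1)*e^2*a^3*b*c + (2)*e^2*a^2*s + e^2*a*b*c + (-1)*e^2*s + (-1)*e*a^3*b + e*a*b)*h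

def J6 (e P D c s : ℝ) : ℝ := P*(e+3*c-2*c^3)-s^3*D

lemma idK (e a b c s : ℝ) (h : s^2+c^2=1) :
    s*KKp e a b c s = J6 e ((a^2-b^2)*s*c+a*b*(c^2-s^2)) ((a^2-b^2)*(c^2-s^2)-4*a*b*s*c) c s
      + c*KK e a b c s := by
  unfold J6 KK KKp
  linear_combination ((2)*a^2*c^2*s + (-1)*a^2*s^3 + (-1)*a^2*s + (2)*a*b*c^3 + (-4)*a*b*c*s^2 + (-1)*a*b*c + (-2)*b^2*c^2*s + b^2*s^3 + b^2*s)*h

noncomputable def K' (e n1 n2 f : ℝ) : ℝ := KKp e (L n1 n2 f) (M n1 n2 f) (cos f) (sin f)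
noncomputable def J (e n1 n2 f : ℝ) : ℝ := J6 e (n1*n2) (n1^2-n2^2) (cos f) (sin f)

lemma hQ (n1 n2 f : ℝ) :
    HasDerivAt (fun x => 1-(L n1 n2 x)^2) (-(2*(L n1 n2 f*M n1 n2 f))) f := by
  refine HasDerivAt.congr_deriv (((hL n1 n2 f).pow 2).const_sub 1) ?_
  norm_num
  ring

lemma hW (e f : ℝ) : HasDerivAt (fun x => 1+e*cos x) (-e*sin f) f := by
  refine HasDerivAt.congr_deriv (((hasDerivAt_cos f).const_mul e).const_add 1) ?_
  ring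

lemma hK (e n1 n2 f : ℝ) : HasDerivAt (K e n1 n2) (K' e n1 n2 f) f := by
  have hs := hasDerivAt_sin f
  have h1 := (hs.const_mul e).mul (hQ n1 n2 f)
  have h2 := (hW e f).mul ((hL n1 n2 f).mul (hM n1 n2 f))
  have h := h1.sub h2
  have hfun : K e n1 n2 = (fun x => e*sin x*(1-(L n1 n2 x)^2)
      -(1+e*cos x)*(L n1 n2 x*M n1 n2 x)) := by funext x; rfl
  rw [hfun]
  refine HasDerivAt.congr_deriv h ?_
  unfold K' KKp
  simp only [Pi.mul_apply]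
  ring

lemma hJ (e n1 n2 f : ℝ) : HasDerivAt (J e n1 n2) (3*sin f*(L n1 n2 f*M n1 n2 f)) f := by
  have hc := hasDerivAt_cos f
  have hs := hasDerivAt_sin f
  have h1 : HasDerivAt (fun x => (n1*n2)*(e+3*cos x-2*(cos x)^3))
      ((n1*n2)*(3*(-sin f)-2*(3*(cos f)^2*(-sin f)))) f := by
    have := (((hc.const_mul 3).const_add e).sub ((hc.pow 3).const_mul 2)).const_mul (n1*n2)
    refine HasDerivAt.congr_deriv this ?_
    norm_num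
  have h2 : HasDerivAt (fun x => (sin x)^3*(n1^2-n2^2)) ((3*(sin f)^2*cos f)*(n1^2-n2^2)) f := by
    have := (hs.pow 3).mul_const (n1^2-n2^2)
    refine HasDerivAt.congr_deriv this ?_
    norm_num
  have h := h1.sub h2
  have hfun : J e n1 n2 = (fun x => (n1*n2)*(e+3*cos x-2*(cos x)^3)
      -(sin x)^3*(n1^2-n2^2)) := by funext x; rfl
  rw [hfun]
  refine HasDerivAt.congr_deriv h ?_
  rw [LM_prod]
  have q := sin_sq_add_cos_sq f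
  linear_combination (3*(n1*n2)*sin f)*q

lemma fY (e n1 n2 f : ℝ) :
    ((-e*sin f)*K e n1 n2 f+(1+e*cos f)*K' e n1 n2 f)*sin f*(1-(L n1 n2 f)^2)
      -(1+e*cos f)*K e n1 n2 f*(cos f*(1-(L n1 n2 f)^2)-sin f*(L n1 n2 f*M n1 n2 f))
      = -E e n1 n2 f := by
  have h := idY e (L n1 n2 f) (M n1 n2 f) (cos f) (sin f) (sin_sq_add_cos_sq f)
  rw [← dl_eq] at h
  exact h

lemma fK (e n1 n2 f : ℝ) : sin f*K' e n1 n2 f = J e n1 n2 f+cos f*K e n1 n2 f := by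
  have h := idK e (L n1 n2 f) (M n1 n2 f) (cos f) (sin f) (sin_sq_add_cos_sq f)
  rw [LM_P, LM_D] at h
  exact h

lemma rolle {f f' : ℝ → ℝ} {x y : ℝ} (h : x < y) (hd : ∀ z ∈ Icc x y, HasDerivAt f (f' z) z)
    (he : f x = f y) : ∃ z ∈ Ioo x y, f' z = 0 := by
  obtain ⟨z, hz, h0⟩ := exists_hasDerivAt_eq_zero h
    (fun z hz => (hd z hz).continuousAt.continuousWithinAt) he
    (fun z hz => hd z (Ioo_subset_Icc_self hz))
  exact ⟨z, hz, h0⟩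

lemma mvt_pos {f f' : ℝ → ℝ} {x y : ℝ} (h : x < y) (hd : ∀ z ∈ Icc x y, HasDerivAt f (f' z) z)
    (he : f x < f y) : ∃ z ∈ Ioo x y, 0 < f' z := by
  obtain ⟨z, hz, h0⟩ := exists_hasDerivAt_eq_slope f f' h
    (fun z hz => (hd z hz).continuousAt.continuousWithinAt)
    (fun z hz => hd z (Ioo_subset_Icc_self hz))
  exact ⟨z, hz, by rw [h0]; exact div_pos (by linarith) (by linarith)⟩

lemma mvt_neg {f f' : ℝ → ℝ} {x y : ℝ} (h : x < y) (hd : ∀ z ∈ Icc x y, HasDerivAt f (f' z) z)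
    (he : f y < f x) : ∃ z ∈ Ioo x y, f' z < 0 := by
  obtain ⟨z, hz, h0⟩ := exists_hasDerivAt_eq_slope f f' h
    (fun z hz => (hd z hz).continuousAt.continuousWithinAt)
    (fun z hz => hd z (Ioo_subset_Icc_self hz))
  exact ⟨z, hz, by rw [h0]; exact div_neg_of_neg_of_pos (by linarith) (by linarith)⟩

lemma w_pos {e : ℝ} (h0 : 0 < e) (h1 : e < 1) (f : ℝ) : 0 < 1+e*cos f := by
  have := neg_one_le_cos f
  nlinarith

lemma s_pos {x : ℝ} (hx : x ∈ Ioo 0 π) : 0 < sin x := sin_pos_of_pos_of_lt_pi hx.1 hx.2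

lemma Q_pos {n1 n2 : ℝ} (hν : n1^2+n2^2 < 1) (f : ℝ) : 0 < 1-(L n1 n2 f)^2 := by
  have := LM_sq n1 n2 f
  nlinarith [sq_nonneg (M n1 n2 f)]

lemma mem_of {x y z : ℝ} (hx : x ∈ Ioo 0 π) (hy : y ∈ Ioo 0 π) (hz : z ∈ Icc x y) :
    z ∈ Ioo 0 π := ⟨lt_of_lt_of_le hx.1 hz.1, lt_of_le_of_lt hz.2 hy.2⟩

/-- `y₀ = w κ₀ / (e s S)`. -/
noncomputable def Y (e n1 n2 f : ℝ) : ℝ :=
  ((1+e*cos f)*K e n1 n2 f)/(e*sin f*√(1-(L n1 n2 f)^2))

lemma hY {e n1 n2 f : ℝ} (h0 : 0 < e) (hν : n1^2+n2^2 < 1) (hf : f ∈ Ioo 0 π) :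
    HasDerivAt (Y e n1 n2)
      (-E e n1 n2 f/(e*(sin f)^2*((1-(L n1 n2 f)^2)*√(1-(L n1 n2 f)^2)))) f := by
  have hQp := Q_pos hν f
  have hs := s_pos hf
  have hsq := (hQ n1 n2 f).sqrt hQp.ne'
  have hN := (hW e f).mul (hK e n1 n2 f)
  have hD := ((hasDerivAt_sin f).const_mul e).mul hsq
  have hS : 0 < √(1-(L n1 n2 f)^2) := sqrt_pos.mpr hQp
  have h := hN.div hD (by simp only [Pi.mul_apply]; positivity)
  have hfun : Y e n1 n2 = (fun x => ((1+e*cos x)*K e n1 n2 x)/(e*sin x*√(1-(L n1 n2 x)^2))) := by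
    funext x; rfl
  rw [hfun]
  refine HasDerivAt.congr_deriv h ?_
  simp only [Pi.mul_apply]
  have hSS : √(1-(L n1 n2 f)^2)^2 = 1-(L n1 n2 f)^2 := sq_sqrt hQp.le
  have hkey := fY e n1 n2 f
  set S := √(1-(L n1 n2 f)^2) with hSdef
  rw [← hSS] at hkey ⊢
  rw [div_eq_div_iff (by positivity) (by positivity)]
  field_simp
  linear_combination hkey

end Pool.Agent.H225.Confocal
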