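import Mathlib

set_option autoImplicit false

namespace Pool.Agent.H225.ExpOne

/-! ### A recursion principle -/

theorem exists_col (R : ℕ → ℕ → Prop) (hlt : ∀ u b, R u b → b < u)
    (huniq : ∀ u b b', R u b → R u b' → b = b') (d : ℕ → Bool) :
    ∃ χ : ℕ → Bool, (∀ u b, R u b → χ u = !χ b) ∧ (∀ u, (∀ b, ¬ R u b) → χ u = d u) := by
  classical
  let F : (u : ℕ) → ((b : ℕ) → b < u → Bool) → Bool := fun u ih =>
    if h : ∃ b, R u b then !(ih h.choose (hlt _ _ h.choose_spec)) else d u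
  refine ⟨(Nat.lt_wfRel.wf).fix F, ?_, ?_⟩
  · intro u b hub
    rw [WellFounded.fix_eq]
    have h : ∃ b, R u b := ⟨b, hub⟩
    have : h.choose = b := huniq _ _ _ h.choose_spec hub
    simp only [F, h, dif_pos]
    rw [this]
  · intro u hu
    rw [WellFounded.fix_eq]
    have h : ¬ ∃ b, R u b := fun ⟨b, hb⟩ => hu b hb
    simp only [F, h, dif_neg, not_false_eq_true]

/-! ### Primitive numbers (numbers that are not proper powers) -/

/-- `z ≥ 2` is not a proper power. -/
def Prim (z : ℕ) : Prop := 2 ≤ z ∧ ∀ t k : ℕ, z = t ^ k → k = 1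

theorem prim_eq {z w a b : ℕ} (hz : Prim z) (hw : Prim w) (ha : 1 ≤ a) (h : z ^ a = w ^ b) :
    z = w := by
  have hb : 1 ≤ b := by
    rcases Nat.eq_zero_or_pos b with rfl | hb
    · simp only [pow_zero] at h
      have := Nat.one_lt_pow (by omega : a ≠ 0) (by have := hz.1; omega : 1 < z)
      omega
    · exact hb
  obtain ⟨g, a', b', hg, hco, rfl, rfl⟩ := Nat.exists_coprime' (Nat.gcd_pos_of_pos_left b ha)
  have hg0 : g ≠ 0 := by omega
  have h1 : z ^ a' = w ^ b' := by
    have : (z ^ a') ^ g = (w ^ b') ^ g := by rw [← pow_mul, ← pow_mul]; exact h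
    exact Nat.pow_left_injective hg0 this
  obtain ⟨c, hc1, hc2⟩ := Nat.exists_eq_pow_of_exponent_coprime_of_pow_eq_pow hco h1
  have e1 := hz.2 _ _ hc1
  have e2 := hw.2 _ _ hc2
  rw [hc1, hc2, e1, e2]

theorem exists_prim {n : ℕ} (hn : 2 ≤ n) : ∃ z e, Prim z ∧ 1 ≤ e ∧ n = z ^ e := by
  induction n using Nat.strong_induction_on with
  | _ n ih =>
    by_cases hp : Prim n
    · exact ⟨n, 1, hp, le_refl _, (pow_one n).symm⟩
    · simp only [Prim, not_and, not_forall] at hp
      obtain ⟨t, k, hk, hk1⟩ := hp hn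
      have hk2 : 2 ≤ k := by
        rcases Nat.lt_or_ge k 2 with h | h
        · interval_cases k
          · simp at hk; omega
          · exact absurd rfl hk1
        · exact h
      have ht : 2 ≤ t := by
        rcases Nat.lt_or_ge t 2 with h | h
        · interval_cases t
          · rw [zero_pow (by omega)] at hk; omega
          · simp at hk; omega
        · exact h
      have htn : t < n := by
        rw [hk]
        calc t = t ^ 1 := (pow_one t).symm
          _ < t ^ k := Nat.pow_lt_pow_right (by omega) (by omega)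
      obtain ⟨z, e, hz, he, hze⟩ := ih t htn ht
      exact ⟨z, e * k, hz, by nlinarith, by rw [hk, hze, pow_mul]⟩

theorem prim_pow_inj {z w a b : ℕ} (hz : Prim z) (hw : Prim w) (ha : 1 ≤ a) (h : z ^ a = w ^ b) :
    z = w ∧ a = b := by
  have h1 := prim_eq hz hw ha h
  subst h1
  exact ⟨rfl, Nat.pow_right_injective hz.1 h⟩

/-- Two distinct primitive numbers have non-proportional exponent vectors. -/
theorem exists_primes {w w' : ℕ} (hw : Prim w) (hw' : Prim w') (hne : w ≠ w') :
    ∃ p q : ℕ, w.factorization p * w'.factorization q ≠ w.factorization q * w'.factorization p := by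
  by_contra hcon
  push Not at hcon
  have h0 : w ≠ 0 := by have := hw.1; omega
  have h0' : w' ≠ 0 := by have := hw'.1; omega
  obtain ⟨q, hq, hqd⟩ := Nat.exists_prime_and_dvd (n := w') (by have := hw'.1; omega)
  have hβ : 0 < w'.factorization q := hq.factorization_pos_of_dvd h0' hqd
  have key : w ^ (w'.factorization q) = w' ^ (w.factorization q) := by
    apply Nat.eq_of_factorization_eq (pow_ne_zero _ h0) (pow_ne_zero _ h0')
    intro p
    rw [Nat.factorization_pow, Nat.factorization_pow]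
    simp only [Finsupp.smul_apply, smul_eq_mul]
    have := hcon p q
    linarith
  exact hne (prim_eq hw hw' hβ key)

/-- The basic inequality: multiplicatively independent bases. -/
theorem gl2 {w w' A A' g g' M : ℕ} (hw : Prim w) (hw' : Prim w') (hne : w ≠ w')
    (hA : A ≠ 0) (hA' : A' ≠ 0) (h : A * w ^ g = A' * w' ^ g')
    (hM : ∀ p, A.factorization p + A'.factorization p ≤ M) : g ≤ 2 * M * w' := by
  have h0 : w ≠ 0 := by have := hw.1; omega
  have h0' : w' ≠ 0 := by have := hw'.1; omega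
  obtain ⟨p, q, hpq⟩ := exists_primes hw hw' hne
  have hfac : ∀ r, A.factorization r + g * w.factorization r
      = A'.factorization r + g' * w'.factorization r := by
    intro r
    have := congrArg (fun n => n.factorization r) h
    beta_reduce at this
    rw [Nat.factorization_mul hA (pow_ne_zero _ h0), Nat.factorization_mul hA' (pow_ne_zero _ h0'),
      Nat.factorization_pow, Nat.factorization_pow] at this
    simpa using this
  have hp := hfac p
  have hq := hfac q
  have hMp := hM p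
  have hMq := hM q
  have hbp : w'.factorization p ≤ w' := (Nat.factorization_lt p h0').le
  have hbq : w'.factorization q ≤ w' := (Nat.factorization_lt q h0').le
  generalize w.factorization p = a at *
  generalize w.factorization q = b at *
  generalize w'.factorization p = a' at *
  generalize w'.factorization q = b' at *
  generalize A.factorization p = x at *
  generalize A.factorization q = y at *
  generalize A'.factorization p = x' at *
  generalize A'.factorization q = y' at *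
  zify at *
  have e : (g : ℤ) * (a * b' - b * a') = (x' - x) * b' - (y' - y) * a' := by
    linear_combination b' * hp - a' * hq
  have h1 : (1 : ℤ) ≤ |(a : ℤ) * b' - b * a'| := by
    have : (a : ℤ) * b' - b * a' ≠ 0 := sub_ne_zero.mpr hpq
    exact Int.one_le_abs this
  have h2 : (g : ℤ) ≤ |(g : ℤ) * (a * b' - b * a')| := by
    rw [abs_mul, Nat.abs_cast]
    nlinarith [Int.natCast_nonneg g]
  have h3 : |((x' : ℤ) - x) * b' - (y' - y) * a'| ≤ M * b' + M * a' := by
    have i1 : |((x' : ℤ) - x) * b'| ≤ M * b' := by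
      rw [abs_mul, Nat.abs_cast]
      apply mul_le_mul_of_nonneg_right _ (Int.natCast_nonneg _)
      rw [abs_le]; constructor <;> linarith [Int.natCast_nonneg x, Int.natCast_nonneg x']
    have i2 : |((y' : ℤ) - y) * a'| ≤ M * a' := by
      rw [abs_mul, Nat.abs_cast]
      apply mul_le_mul_of_nonneg_right _ (Int.natCast_nonneg _)
      rw [abs_le]; constructor <;> linarith [Int.natCast_nonneg y, Int.natCast_nonneg y']
    calc _ ≤ _ := abs_sub _ _
      _ ≤ _ := add_le_add i1 i2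
  rw [e] at h2
  have hM0 : (0 : ℤ) ≤ M := Int.natCast_nonneg M
  nlinarith

/-- The threshold function. -/
def V (n : ℕ) : ℕ := 32 * n ^ 4 + 4

theorem V_mono {m n : ℕ} (h : m ≤ n) : V m ≤ V n := by
  unfold V; gcongr

theorem lt_V (n : ℕ) : n < V n := by
  unfold V
  rcases Nat.eq_zero_or_pos n with rfl | h
  · norm_num
  · have : n ≤ n ^ 4 := Nat.le_self_pow (by norm_num) n
    omega

/-- `E` is `w`-pure with cofactor `u` and exponent `g`. -/
def Pure (w E u g : ℕ) : Prop := E = u * w ^ g ∧ ¬ w ∣ u ∧ V (max w u) < g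

theorem ne_zero_of_not_dvd {w u : ℕ} (h : ¬ w ∣ u) : u ≠ 0 := by
  rintro rfl; exact h (dvd_zero w)

theorem powU {w u u' g g' : ℕ} (hw : 2 ≤ w) (h : u * w ^ g = u' * w ^ g')
    (hu : ¬ w ∣ u) (hu' : ¬ w ∣ u') : g = g' ∧ u = u' := by
  have hwpos : 0 < w := by omega
  rcases lt_trichotomy g g' with hlt | heq | hlt
  · exfalso
    obtain ⟨d, rfl⟩ := Nat.exists_eq_add_of_lt hlt
    apply hu
    have : u * w ^ g = (u' * w ^ (d + 1)) * w ^ g := by rw [h]; ring
    have := Nat.eq_of_mul_eq_mul_right (pow_pos hwpos g) this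
    rw [this, pow_succ]
    exact ⟨u' * w ^ d, by ring⟩
  · subst heq
    exact ⟨rfl, Nat.eq_of_mul_eq_mul_right (pow_pos hwpos g) h⟩
  · exfalso
    obtain ⟨d, rfl⟩ := Nat.exists_eq_add_of_lt hlt
    apply hu'
    have : u' * w ^ g' = (u * w ^ (d + 1)) * w ^ g' := by rw [← h]; ring
    have := Nat.eq_of_mul_eq_mul_right (pow_pos hwpos g') this
    rw [this, pow_succ]
    exact ⟨u * w ^ d, by ring⟩

theorem fac_le {u : ℕ} (h : u ≠ 0) (p : ℕ) : u.factorization p ≤ u :=
  (Nat.factorization_lt p h).le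

/-- The base, cofactor and exponent of a pure number are unique. -/
theorem pure_unique {w w' E u u' g g' : ℕ} (hw : Prim w) (hw' : Prim w')
    (h : Pure w E u g) (h' : Pure w' E u' g') : w = w' ∧ u = u' ∧ g = g' := by
  obtain ⟨e1, d1, v1⟩ := h
  obtain ⟨e2, d2, v2⟩ := h'
  have hu := ne_zero_of_not_dvd d1
  have hu' := ne_zero_of_not_dvd d2
  by_cases hne : w = w'
  · subst hne
    have := powU hw.1 (e1.symm.trans e2) d1 d2
    exact ⟨rfl, this.2, this.1⟩
  · exfalso
    have i1 := gl2 (M := u + u') hw hw' hne hu hu' (e1.symm.trans e2)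
      (fun p => add_le_add (fac_le hu p) (fac_le hu' p))
    have i2 := gl2 (M := u + u') hw' hw (Ne.symm hne) hu' hu (e2.symm.trans e1)
      (fun p => by rw [add_comm]; exact add_le_add (fac_le hu p) (fac_le hu' p))
    -- the larger maximum gives a contradiction
    have key : ∀ n n' G : ℕ, u ≤ n → u' ≤ n → n' ≤ n → G ≤ 2 * (u + u') * n' → V n < G → False := by
      intro n n' G h1 h2 h3 h4 h5
      have : 2 * (u + u') * n' ≤ 4 * n ^ 2 := by nlinarith
      have h6 : 4 * n ^ 2 ≤ 32 * n ^ 4 := by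
        rcases Nat.eq_zero_or_pos n with rfl | hn
        · norm_num
        · have : n ^ 2 ≤ n ^ 4 := Nat.pow_le_pow_right hn (by norm_num)
          omega
      unfold V at h5
      omega
    rcases le_total (max w' u') (max w u) with hle | hle
    · exact key (max w u) w' g (le_max_right _ _) (le_trans (le_max_right _ _) hle)
        (le_trans (le_max_left _ _) hle) i1 v1
    · exact key (max w' u') w g' (le_trans (le_max_right _ _) hle) (le_max_right _ _)
        (le_trans (le_max_left _ _) hle) i2 v2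

/-- The relation governing the guard on bases. -/
def Rel (z w : ℕ) : Prop := Prim z ∧ Prim w ∧ w ≠ z ∧ ∃ c e u g : ℕ, 1 ≤ c ∧ 1 ≤ e ∧
  c ^ (1 + 24 * c ^ 4) < z ∧ Pure w (c * z ^ e) u g

theorem rel_lt (z w : ℕ) (h : Rel z w) : w < z := by
  obtain ⟨hz, hw, hne, c, e, u, g, hc, he, hcz, hE, hu, hg⟩ := h
  have hu0 := ne_zero_of_not_dvd hu
  have i1 := gl2 (M := u + c) hw hz hne hu0 (by omega : c ≠ 0) hE.symm
      (fun p => add_le_add (fac_le hu0 p) (fac_le (by omega) p))
  by_contra hge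
  push Not at hge
  have hc' : c ≤ z := by
    calc c = c ^ 1 := (pow_one c).symm
      _ ≤ c ^ (1 + 24 * c ^ 4) := Nat.pow_le_pow_right hc (by omega)
      _ ≤ z := hcz.le
  have h1 : w ≤ max w u := le_max_left _ _
  have h2 : u ≤ max w u := le_max_right _ _
  generalize max w u = n at *
  have : 2 * (u + c) * z ≤ 4 * n ^ 2 := by nlinarith
  have hn : 1 ≤ n := by have := hw.1; omega
  have h6 : 4 * n ^ 2 ≤ 32 * n ^ 4 := by
    have : n ^ 2 ≤ n ^ 4 := Nat.pow_le_pow_right hn (by norm_num)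
    omega
  unfold V at hg
  omega

theorem rel_aux {z w w' c c' e e' u u' g g' : ℕ} (hz : Prim z) (hw : Prim w) (hw' : Prim w')
    (hne : w ≠ w') (hwz : w ≠ z) (hc : 1 ≤ c) (hc' : 1 ≤ c') (he' : 1 ≤ e')
    (h : Pure w (c * z ^ e) u g) (h' : Pure w' (c' * z ^ e') u' g') :
    g ≤ 6 * w * w' * (c + u) * (c' + u') := by
  obtain ⟨e1, d1, v1⟩ := h
  obtain ⟨e2, d2, v2⟩ := h'
  have hu := ne_zero_of_not_dvd d1
  have hu' := ne_zero_of_not_dvd d2
  have hc0 : c ≠ 0 := by omega
  have hc0' : c' ≠ 0 := by omega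
  -- bound on `e`
  have j1 := gl2 (M := c + u) hz hw (Ne.symm hwz) hc0 hu e1
      (fun p => add_le_add (fac_le hc0 p) (fac_le hu p))
  -- cross multiplication
  have hcross : (c' ^ e * u ^ e') * w ^ (g * e') = (c ^ e' * u' ^ e) * w' ^ (g' * e) := by
    have a1 : c ^ e' * z ^ (e * e') = u ^ e' * w ^ (g * e') := by
      rw [pow_mul, pow_mul, ← mul_pow, ← mul_pow, e1]
    have a2 : c' ^ e * z ^ (e * e') = u' ^ e * w' ^ (g' * e) := by
      rw [mul_comm e e', pow_mul, pow_mul, ← mul_pow, ← mul_pow, e2]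
    have hzp : 0 < z ^ (e * e') := pow_pos (by have := hz.1; omega) _
    apply Nat.eq_of_mul_eq_mul_right hzp
    calc _ = (c' ^ e * z ^ (e * e')) * (u ^ e' * w ^ (g * e')) := by ring
      _ = (u' ^ e * w' ^ (g' * e)) * (c ^ e' * z ^ (e * e')) := by rw [a2, ← a1]
      _ = _ := by ring
  have hA : c' ^ e * u ^ e' ≠ 0 := mul_ne_zero (pow_ne_zero _ hc0') (pow_ne_zero _ hu)
  have hA' : c ^ e' * u' ^ e ≠ 0 := mul_ne_zero (pow_ne_zero _ hc0) (pow_ne_zero _ hu')
  have k1 := gl2 (M := e * (c' + u') + e' * (c + u)) hw hw' hne hA hA' hcross (by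
    intro p
    rw [Nat.factorization_mul (pow_ne_zero _ hc0') (pow_ne_zero _ hu),
      Nat.factorization_mul (pow_ne_zero _ hc0) (pow_ne_zero _ hu'),
      Nat.factorization_pow, Nat.factorization_pow, Nat.factorization_pow, Nat.factorization_pow]
    simp only [Finsupp.add_apply, Finsupp.smul_apply, smul_eq_mul]
    have b1 := fac_le hc0 p
    have b2 := fac_le hc0' p
    have b3 := fac_le hu p
    have b4 := fac_le hu' p
    nlinarith)
  -- conclude
  have hw2 := hw.1
  have step : g * e' ≤ (6 * w * w' * (c + u) * (c' + u')) * e' := by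
    have s1 : e * (c' + u') + e' * (c + u) ≤ 3 * w * (c + u) * (c' + u') * e' := by
      have s2 : e * (c' + u') ≤ 2 * (c + u) * w * (c' + u') * e' := by
        calc e * (c' + u') ≤ (2 * (c + u) * w) * (c' + u') := Nat.mul_le_mul_right _ j1
          _ = (2 * (c + u) * w * (c' + u')) * 1 := by ring
          _ ≤ (2 * (c + u) * w * (c' + u')) * e' := Nat.mul_le_mul_left _ he'
      have s3 : e' * (c + u) ≤ w * (c + u) * (c' + u') * e' := by
        have : 1 ≤ w * (c' + u') := Nat.one_le_iff_ne_zero.mpr (mul_ne_zero (by omega) (by omega))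
        calc e' * (c + u) = (e' * (c + u)) * 1 := by ring
          _ ≤ (e' * (c + u)) * (w * (c' + u')) := Nat.mul_le_mul_left _ this
          _ = _ := by ring
      calc _ ≤ _ := add_le_add s2 s3
        _ = _ := by ring
    calc g * e' ≤ 2 * (e * (c' + u') + e' * (c + u)) * w' := k1
      _ ≤ 2 * (3 * w * (c + u) * (c' + u') * e') * w' := by gcongr
      _ = _ := by ring
  exact Nat.le_of_mul_le_mul_right step (by omega)

theorem rel_key {z w c c' e u g n n' m : ℕ}
    (hc : 1 ≤ c) (he : 1 ≤ e) (hcz : c ^ (1 + 24 * c ^ 4) < z) (hcz' : c' ^ (1 + 24 * c' ^ 4) < z)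
    (hE : c * z ^ e = u * w ^ g) (hwn : w ≤ n) (hun : u ≤ n) (hn : n' ≤ n)
    (hV : V n < g) (hm : m ≤ n) (hg : g ≤ 6 * n * n' * (c + n) * (c' + m)) : False := by
  by_cases hl : max c c' ≤ n
  · have h1 : c ≤ n := le_trans (le_max_left _ _) hl
    have h2 : c' ≤ n := le_trans (le_max_right _ _) hl
    have : 6 * n * n' * (c + n) * (c' + m) ≤ 6 * n * n * (n + n) * (n + n) := by gcongr
    unfold V at hV
    have e1 : 6 * n * n * (n + n) * (n + n) = 24 * n ^ 4 := by ring
    have : 24 * n ^ 4 ≤ 32 * n ^ 4 := by gcongr; norm_num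
    omega
  · push Not at hl
    set l := max c c' with hldef
    have hcl : c ≤ l := le_max_left _ _
    have hcl' : c' ≤ l := le_max_right _ _
    have hlz : l ^ (1 + 24 * l ^ 4) < z := by
      rcases max_choice c c' with h | h
      · rw [hldef, h]; exact hcz
      · rw [hldef, h]; exact hcz'
    have hg2 : g ≤ 24 * l ^ 4 := by
      calc g ≤ _ := hg
        _ ≤ 6 * l * l * (l + l) * (l + l) := by
          have : n ≤ l := hl.le
          have : n' ≤ l := by omega
          have : m ≤ l := by omega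
          gcongr
        _ = 24 * l ^ 4 := by ring
    have hl1 : 1 ≤ l := by omega
    have : z ≤ l ^ (1 + 24 * l ^ 4) := by
      calc z = 1 * z ^ 1 := by ring
        _ ≤ c * z ^ e := by
          apply Nat.mul_le_mul hc
          exact Nat.pow_le_pow_right (by omega) he
        _ = u * w ^ g := hE
        _ ≤ l * l ^ g := by
          apply Nat.mul_le_mul (by omega)
          exact Nat.pow_le_pow_left (by omega) _
        _ = l ^ (1 + g) := by rw [pow_add, pow_one]
        _ ≤ l ^ (1 + 24 * l ^ 4) := Nat.pow_le_pow_right hl1 (by omega)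
    omega

theorem rel_unique (z w w' : ℕ) (h : Rel z w) (h' : Rel z w') : w = w' := by
  by_contra hne
  obtain ⟨hz, hw, hwz, c, e, u, g, hc, he, hcz, hP⟩ := h
  obtain ⟨_, hw', hwz', c', e', u', g', hc', he', hcz', hP'⟩ := h'
  have a1 := rel_aux hz hw hw' hne hwz hc hc' he' hP hP'
  have a2 := rel_aux hz hw' hw (Ne.symm hne) hwz' hc' hc he hP' hP
  obtain ⟨e1, d1, v1⟩ := hP
  obtain ⟨e2, d2, v2⟩ := hP'
  rcases le_total (max w' u') (max w u) with hle | hle
  · refine rel_key (n := max w u) (n' := max w' u') (m := max w' u') hc he hcz hcz' e1 (le_max_left _ _)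
      (le_max_right _ _) hle v1 hle (le_trans a1 ?_)
    have : w ≤ max w u := le_max_left _ _
    have : u ≤ max w u := le_max_right _ _
    have : w' ≤ max w' u' := le_max_left _ _
    have : u' ≤ max w' u' := le_max_right _ _
    gcongr
  · refine rel_key (n := max w' u') (n' := max w u) (m := max w u) hc' he' hcz' hcz e2 (le_max_left _ _)
      (le_max_right _ _) hle v2 hle (le_trans a2 ?_)
    have : w ≤ max w u := le_max_left _ _
    have : u ≤ max w u := le_max_right _ _
    have : w' ≤ max w' u' := le_max_left _ _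
    have : u' ≤ max w' u' := le_max_right _ _
    gcongr

/-! ### Additive gaps -/

theorem two_pow_ge {t : ℕ} (ht : 5 ≤ t) : 6 * t ≤ 2 ^ t := by
  induction t, ht using Nat.le_induction with
  | base => norm_num
  | succ n hn ih => rw [pow_succ]; omega

theorem add_unique_aux {z b b' t t' : ℕ} {a a' : ℤ} (hz : 2 ≤ z)
    (h : a + (z : ℤ) ^ t * b = a' + (z : ℤ) ^ t' * b') (hb : ¬ z ∣ b) (hb' : ¬ z ∣ b')
    (ht : |a| + b + 4 < t) (ht' : |a'| + b' + 4 < t') (hle : t ≤ t') : t = t' ∧ a = a' ∧ b = b' := by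
  have hb0 : 1 ≤ b := Nat.one_le_iff_ne_zero.mpr (ne_zero_of_not_dvd hb)
  have hb0' : 1 ≤ b' := Nat.one_le_iff_ne_zero.mpr (ne_zero_of_not_dvd hb')
  obtain ⟨d, rfl⟩ := Nat.exists_eq_add_of_le hle
  have ht5 : 5 ≤ t := by have := abs_nonneg a; omega
  have hzt : (2 : ℤ) ^ t ≤ (z : ℤ) ^ t := pow_le_pow_left₀ (by norm_num) (by exact_mod_cast hz) t
  have h6t : (6 * t : ℤ) ≤ 2 ^ t := by exact_mod_cast two_pow_ge ht5
  have hdvd : (z : ℤ) ^ t ∣ a - a' := ⟨(z : ℤ) ^ d * b' - b, by rw [pow_add] at h; linear_combination h⟩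
  by_cases haa : a = a'
  · subst haa
    have h1 : (z : ℤ) ^ t * b = (z : ℤ) ^ (t + d) * b' := by linarith
    have h2 : b * z ^ t = b' * z ^ (t + d) := by
      have : (z : ℤ) ^ t * b = (z : ℤ) ^ (t + d) * b' := h1
      have : (b : ℤ) * z ^ t = b' * z ^ (t + d) := by linarith
      exact_mod_cast this
    have := powU hz h2 hb hb'
    exact ⟨this.1, rfl, this.2⟩
  · exfalso
    have hsub : a - a' ≠ 0 := sub_ne_zero.mpr haa
    have hge : (z : ℤ) ^ t ≤ |a - a'| := by
      by_contra hlt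
      push Not at hlt
      exact hsub (Int.eq_zero_of_abs_lt_dvd hdvd hlt)
    have htri : |a - a'| ≤ |a| + |a'| := abs_sub _ _
    -- so `d` is large
    have ha0 := abs_nonneg a
    have ha0' := abs_nonneg a'
    have hd : (4 * t : ℤ) + 4 < d := by push_cast at ht'; linarith
    have hd' : 4 * t + 4 < d := by exact_mod_cast hd
    have h2d : 6 * d ≤ 2 ^ d := two_pow_ge (by omega)
    have hzd : (2 : ℤ) ^ d ≤ (z : ℤ) ^ d := pow_le_pow_left₀ (by norm_num) (by exact_mod_cast hz) d
    have h2d' : (6 * d : ℤ) ≤ (z : ℤ) ^ d := le_trans (by exact_mod_cast h2d) hzd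
    -- compare
    have e1 : (z : ℤ) ^ t * ((z : ℤ) ^ d * b' - b) = a - a' := by
      rw [pow_add] at h; linear_combination -h
    have hb'1 : (1 : ℤ) ≤ b' := by exact_mod_cast hb0'
    have hzd0 : (0 : ℤ) ≤ (z : ℤ) ^ d := by positivity
    have e2 : (z : ℤ) ^ d ≤ (z : ℤ) ^ d * b' := by nlinarith
    have e3 : (b : ℤ) < t := by linarith
    have e4 : (5 * d : ℤ) ≤ (z : ℤ) ^ d * b' - b := by linarith
    have e5 : (5 * d : ℤ) ≤ (z : ℤ) ^ t * ((z : ℤ) ^ d * b' - b) := by
      have : (1 : ℤ) ≤ (z : ℤ) ^ t := by linarith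
      nlinarith
    rw [e1] at e5
    have e6 : a - a' ≤ |a - a'| := le_abs_self _
    push_cast at ht'
    linarith

theorem add_unique {z b b' t t' : ℕ} {a a' : ℤ} (hz : 2 ≤ z)
    (h : a + (z : ℤ) ^ t * b = a' + (z : ℤ) ^ t' * b') (hb : ¬ z ∣ b) (hb' : ¬ z ∣ b')
    (ht : |a| + b + 4 < t) (ht' : |a'| + b' + 4 < t') : t = t' ∧ a = a' ∧ b = b' := by
  rcases le_total t t' with hle | hle
  · exact add_unique_aux hz h hb hb' ht ht' hle
  · obtain ⟨r1, r2, r3⟩ := add_unique_aux hz h.symm hb' hb ht' ht hle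
    exact ⟨r1.symm, r2.symm, r3.symm⟩

/-- The relation governing the guard on cofactors. -/
def Near (z u b : ℕ) : Prop := 2 ≤ z ∧ ¬ z ∣ b ∧
  ∃ (τ : ℕ) (α : ℤ), (u : ℤ) = α + (z : ℤ) ^ τ * b ∧ |α| + b + 4 < τ

theorem near_lt (z u b : ℕ) (h : Near z u b) : b < u := by
  obtain ⟨hz, hb, τ, α, hu, hτ⟩ := h
  have hb0 : 1 ≤ b := Nat.one_le_iff_ne_zero.mpr (ne_zero_of_not_dvd hb)
  have h0 := abs_nonneg α
  have h5 : 5 ≤ τ := by omega
  have hzt : (2 : ℤ) ^ τ ≤ (z : ℤ) ^ τ := pow_le_pow_left₀ (by norm_num) (by exact_mod_cast hz) τ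
  have h6t : (6 * τ : ℤ) ≤ 2 ^ τ := by exact_mod_cast two_pow_ge h5
  have hb1 : (1 : ℤ) ≤ b := by exact_mod_cast hb0
  have h1 : (z : ℤ) ^ τ ≤ (z : ℤ) ^ τ * b := by
    have : (0 : ℤ) ≤ (z : ℤ) ^ τ := by positivity
    nlinarith
  have h2 := neg_abs_le α
  have : (b : ℤ) < u := by linarith
  exact_mod_cast this

theorem near_unique (z u b b' : ℕ) (h : Near z u b) (h' : Near z u b') : b = b' := by
  obtain ⟨hz, hb, τ, α, hu, hτ⟩ := h
  obtain ⟨_, hb', τ', α', hu', hτ'⟩ := h'
  exact (add_unique hz (hu.symm.trans hu') hb hb' hτ hτ').2.2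

/-! ### The colouring -/

section Colouring

variable (χ : ℕ → Bool) (X : ℕ → ℕ → Bool)

/-- Peeling a gap. -/
def Peel (z E E' : ℕ) : Prop := ∃ u g a b t : ℕ, Pure z E u g ∧ g = a + z ^ t * b ∧ ¬ z ∣ b ∧
  V (max z (max a b)) < t ∧ X z u = X z b ∧ E' = u * z ^ a

/-- Reducing modulo a small power. -/
def Red (z E E' : ℕ) : Prop := ∃ u g : ℕ, Pure z E u g ∧
  g % z ^ (V (max z u) + 1) ≤ V (max z u) ∧ E' = u * z ^ (g % z ^ (V (max z u) + 1))

/-- Removing a pure part with respect to another base. -/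
def Oth (z E E' : ℕ) : Prop := ∃ w g : ℕ, Prim w ∧ w ≠ z ∧ χ w = χ z ∧ Pure w E E' g

/-- The full relation. -/
def CR (z E E' : ℕ) : Prop := Prim z ∧ V z < E ∧ (Peel X z E E' ∨
  ((∀ E'', ¬ Peel X z E E'') ∧ Red z E E') ∨
  ((∀ E'', ¬ Peel X z E E'') ∧ (∀ E'', ¬ Red z E E'') ∧ Oth χ z E E'))

theorem peel_lt {z E E' : ℕ} (hz : Prim z) (h : Peel X z E E') : E' < E := by
  obtain ⟨u, g, a, b, t, ⟨rfl, hu, hg⟩, hgg, hb, ht, -, rfl⟩ := h
  have hu0 := ne_zero_of_not_dvd hu
  have hb0 := ne_zero_of_not_dvd hb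
  have hz2 := hz.1
  apply Nat.mul_lt_mul_of_pos_left _ (Nat.pos_of_ne_zero hu0)
  apply Nat.pow_lt_pow_right (by omega)
  have : 0 < z ^ t * b := Nat.mul_pos (pow_pos (by omega) _) (Nat.pos_of_ne_zero hb0)
  omega

theorem red_lt {z E E' : ℕ} (hz : Prim z) (h : Red z E E') : E' < E := by
  obtain ⟨u, g, ⟨rfl, hu, hg⟩, hr, rfl⟩ := h
  have hu0 := ne_zero_of_not_dvd hu
  have hz2 := hz.1
  apply Nat.mul_lt_mul_of_pos_left _ (Nat.pos_of_ne_zero hu0)
  apply Nat.pow_lt_pow_right (by omega)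
  omega

theorem oth_lt {z E E' : ℕ} (h : Oth χ z E E') : E' < E := by
  obtain ⟨w, g, hw, hne, -, rfl, hu, hg⟩ := h
  have hu0 := ne_zero_of_not_dvd hu
  have hw2 := hw.1
  have : 1 < w ^ g := Nat.one_lt_pow (by omega) (by omega)
  calc E' = E' * 1 := (mul_one _).symm
    _ < E' * w ^ g := Nat.mul_lt_mul_of_pos_left this (Nat.pos_of_ne_zero hu0)

theorem cr_lt (z E E' : ℕ) (h : CR χ X z E E') : E' < E := by
  obtain ⟨hz, -, h | ⟨-, h⟩ | ⟨-, -, h⟩⟩ := h
  · exact peel_lt X hz h
  · exact red_lt hz h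
  · exact oth_lt χ h

theorem four_V (n : ℕ) (hn : 1 ≤ n) : 2 * n + 4 ≤ V n := by
  unfold V
  have : n ≤ n ^ 4 := Nat.le_self_pow (by norm_num) n
  omega

theorem peel_unique {z E E' E'' : ℕ} (hz : Prim z) (h : Peel X z E E') (h' : Peel X z E E'') :
    E' = E'' := by
  obtain ⟨u, g, a, b, t, hP, hg, hb, ht, -, rfl⟩ := h
  obtain ⟨u', g', a', b', t', hP', hg', hb', ht', -, rfl⟩ := h'
  obtain ⟨-, rfl, rfl⟩ := pure_unique hz hz hP hP'
  have hz2 := hz.1
  have k1 : (a : ℤ) + (z : ℤ) ^ t * b = a' + (z : ℤ) ^ t' * b' := by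
    rw [hg] at hg'; exact_mod_cast hg'
  have bound : ∀ a b t : ℕ, V (max z (max a b)) < t → |(a : ℤ)| + b + 4 < t := by
    intro a b t h
    have h1 := four_V (max z (max a b)) (by omega)
    have h2 : a ≤ max z (max a b) := le_trans (le_max_left _ _) (le_max_right _ _)
    have h3 : b ≤ max z (max a b) := le_trans (le_max_right _ _) (le_max_right _ _)
    rw [Nat.abs_cast]
    omega
  have := add_unique hz2 k1 hb hb' (bound _ _ _ ht) (bound _ _ _ ht')
  have haa : a = a' := by exact_mod_cast this.2.1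
  rw [haa]

theorem red_unique {z E E' E'' : ℕ} (hz : Prim z) (h : Red z E E') (h' : Red z E E'') :
    E' = E'' := by
  obtain ⟨u, g, hP, hr, rfl⟩ := h
  obtain ⟨u', g', hP', hr', rfl⟩ := h'
  obtain ⟨-, rfl, rfl⟩ := pure_unique hz hz hP hP'
  rfl

theorem oth_unique {z E E' E'' : ℕ} (h : Oth χ z E E') (h' : Oth χ z E E'') :
    E' = E'' := by
  obtain ⟨w, g, hw, hne, -, hP⟩ := h
  obtain ⟨w', g', hw', hne', -, hP'⟩ := h'
  exact (pure_unique hw hw' hP hP').2.1

theorem cr_unique (z E E' E'' : ℕ) (h : CR χ X z E E') (h' : CR χ X z E E'') : E' = E'' := by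
  obtain ⟨hz, -, h⟩ := h
  obtain ⟨-, -, h'⟩ := h'
  rcases h with h | ⟨n1, h⟩ | ⟨n1, n2, h⟩ <;> rcases h' with h' | ⟨m1, h'⟩ | ⟨m1, m2, h'⟩
  · exact peel_unique X hz h h'
  · exact absurd h (m1 _)
  · exact absurd h (m1 _)
  · exact absurd h' (n1 _)
  · exact red_unique hz h h'
  · exact absurd h (m2 _)
  · exact absurd h' (n1 _)
  · exact absurd h' (n2 _)
  · exact oth_unique χ h h'

end Colouring

/-! ### Case I: one base -/

theorem lt_mul_pow {z u g : ℕ} (hz : 2 ≤ z) (hu : u ≠ 0) : g < u * z ^ g := by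
  calc g < z ^ g := Nat.lt_pow_self (by omega)
    _ = 1 * z ^ g := (one_mul _).symm
    _ ≤ u * z ^ g := Nat.mul_le_mul_right _ (Nat.one_le_iff_ne_zero.mpr hu)

theorem infinite_or {α : Type*} {T : Set α} (hT : T.Infinite) (p : α → Prop) :
    {e | e ∈ T ∧ p e}.Infinite ∨ {e | e ∈ T ∧ ¬ p e}.Infinite := by
  by_contra h
  push Not at h
  apply hT
  refine (h.1.union h.2).subset ?_
  intro e he
  by_cases hp : p e
  · exact Or.inl ⟨he, hp⟩
  · exact Or.inr ⟨he, hp⟩

theorem infinite_bool {α : Type*} {T : Set α} (hT : T.Infinite) (f : α → Bool) :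
    ∃ β, {e | e ∈ T ∧ f e = β}.Infinite := by
  rcases infinite_or hT (fun e => f e = true) with h | h
  · exact ⟨true, h⟩
  · refine ⟨false, h.mono ?_⟩
    rintro e ⟨h1, h2⟩
    exact ⟨h1, by simpa using h2⟩

theorem infinite_gt {T : Set ℕ} (hT : T.Infinite) (N : ℕ) : ∃ k ∈ T, N < k := hT.exists_gt N

theorem infinite_residue {T : Set ℕ} (hT : T.Infinite) (i M : ℕ) (hM : 0 < M) :
    ∃ ρ, {k | k ∈ T ∧ i < k ∧ k % M = ρ}.Infinite := by
  by_contra h
  push Not at h
  apply hT
  have h1 : (⋃ ρ ∈ Finset.range M, {k | k ∈ T ∧ i < k ∧ k % M = ρ}).Finite := by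
    apply Set.Finite.biUnion (Finset.finite_toSet _)
    intro ρ _
    exact h ρ
  refine (h1.union (Set.finite_Iic i)).subset ?_
  intro k hk
  by_cases hik : i < k
  · left
    simp only [Set.mem_iUnion]
    exact ⟨k % M, Finset.mem_range.mpr (Nat.mod_lt _ hM), hk, hik, rfl⟩
  · right
    exact not_lt.mp hik

theorem V_max_lt {m n t : ℕ} (h1 : V m < t) (h2 : V n < t) : V (max m n) < t := by
  rcases max_choice m n with h | h <;> rw [h] <;> assumption

theorem near_of {z uk vk b t a s0 k : ℕ} (hz2 : 2 ≤ z) (hek : k = uk * z ^ vk) (hb : ¬ z ∣ b)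
    (hk_eq : (k : ℤ) = ((a : ℤ) - s0) + (z : ℤ) ^ t * b) (has : a ≠ s0)
    (hmaxt : 2 * max a s0 + b + 4 < t) : Near z uk b := by
  obtain ⟨m, hm⟩ : ∃ m, m = max a s0 := ⟨_, rfl⟩
  have hma : a ≤ m := hm ▸ le_max_left _ _
  have hms : s0 ≤ m := hm ▸ le_max_right _ _
  rw [← hm] at hmaxt
  clear hm
  have hα0 : (a : ℤ) - s0 ≠ 0 := sub_ne_zero.mpr (by exact_mod_cast has)
  obtain ⟨α, hα⟩ : ∃ α : ℤ, α = (a : ℤ) - s0 := ⟨_, rfl⟩
  rw [← hα] at hk_eq hα0
  have hαabs : |α| ≤ m := by
    rw [hα, abs_le]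
    constructor <;> omega
  have hek' : (k : ℤ) = (uk : ℤ) * (z : ℤ) ^ vk := by exact_mod_cast hek
  have hzt : t < z ^ t := Nat.lt_pow_self (by omega)
  have hvt : vk < t := by
    by_contra hle
    push Not at hle
    obtain ⟨d, hd⟩ := Nat.exists_eq_add_of_le hle
    have hdiv : (z : ℤ) ^ t ∣ α := by
      refine ⟨(uk : ℤ) * (z : ℤ) ^ d - b, ?_⟩
      have : α = (k : ℤ) - (z : ℤ) ^ t * b := by linarith
      rw [this, hek', hd, pow_add]; ring
    have : |α| < (z : ℤ) ^ t := by
      have h5 : (t : ℤ) < (z : ℤ) ^ t := by exact_mod_cast hzt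
      have h6 : (m : ℤ) < t := by exact_mod_cast (by omega : m < t)
      linarith
    exact hα0 (Int.eq_zero_of_abs_lt_dvd hdiv this)
  obtain ⟨d, hd⟩ := Nat.exists_eq_add_of_lt hvt
  have hd2 : t = vk + (d + 1) := by omega
  have hdiv : (z : ℤ) ^ vk ∣ α := by
    refine ⟨(uk : ℤ) - (z : ℤ) ^ (d + 1) * b, ?_⟩
    have : α = (k : ℤ) - (z : ℤ) ^ t * b := by linarith
    rw [this, hek', hd2, pow_add]; ring
  obtain ⟨α', hα'⟩ := hdiv
  have hα'0 : α' ≠ 0 := by
    rintro rfl; rw [mul_zero] at hα'; exact hα0 hα'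
  have hzv : ((vk : ℕ) : ℤ) < (z : ℤ) ^ vk := by
    exact_mod_cast (Nat.lt_pow_self (by omega) : vk < z ^ vk)
  have habs : |α| = (z : ℤ) ^ vk * |α'| := by
    rw [hα', abs_mul, abs_of_nonneg (by positivity)]
  have h1α' : 1 ≤ |α'| := Int.one_le_abs hα'0
  have hzv1 : (1 : ℤ) ≤ (z : ℤ) ^ vk := by
    have := Int.natCast_nonneg vk; linarith
  have hb1 : ((vk : ℕ) : ℤ) ≤ |α| := by
    rw [habs]
    calc ((vk : ℕ) : ℤ) ≤ (z : ℤ) ^ vk * 1 := by linarith
      _ ≤ _ := mul_le_mul_of_nonneg_left h1α' (by linarith)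
  have hb2 : |α'| ≤ |α| := by
    rw [habs]
    calc |α'| = 1 * |α'| := (one_mul _).symm
      _ ≤ _ := mul_le_mul_of_nonneg_right hzv1 (abs_nonneg _)
  refine ⟨hz2, hb, d + 1, α', ?_, ?_⟩
  · have hzpos : (z : ℤ) ^ vk ≠ 0 := by positivity
    apply mul_right_cancel₀ hzpos
    calc (uk : ℤ) * (z : ℤ) ^ vk = k := hek'.symm
      _ = α + (z : ℤ) ^ t * b := hk_eq
      _ = (z : ℤ) ^ vk * α' + (z : ℤ) ^ (vk + (d + 1)) * b := by rw [← hα', ← hd2]
      _ = _ := by rw [pow_add]; ring
  · have h6 : ((2 * m + b + 4 : ℕ) : ℤ) < t := by exact_mod_cast hmaxt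
    have h7 : ((t : ℕ) : ℤ) = vk + ((d : ℤ) + 1) := by
      rw [hd2]; push_cast; ring
    push_cast at h6 ⊢
    linarith

theorem caseI {χ : ℕ → Bool} {X : ℕ → ℕ → Bool} {col : ℕ → ℕ → Bool} {z : ℕ} (hz : Prim z)
    (hX : ∀ u b, Near z u b → X z u = !X z b)
    (hcol : ∀ E E', CR χ X z E E' → col z E = !col z E')
    {T : Set ℕ} (hT : T.Infinite) (hT1 : ∀ e ∈ T, 1 ≤ e) (κ : Bool)
    (H : ∀ e ∈ T, ∀ F : Finset ℕ, (F : Set ℕ) ⊆ T → (∀ f ∈ F, e < f) →
      col z (e * z ^ (∑ f ∈ F, f)) = κ) : False := by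
  have hz2 := hz.1
  -- decomposition
  have hdec : ∀ e : ℕ, ∃ v u : ℕ, 1 ≤ e → (¬ z ∣ u ∧ e = u * z ^ v) := by
    intro e
    by_cases he : 1 ≤ e
    · obtain ⟨v, u, h1, h2⟩ := Nat.exists_eq_pow_mul_and_not_dvd (n := e) (by omega) z (by omega)
      exact ⟨v, u, fun _ => ⟨h1, by rw [h2]; ring⟩⟩
    · exact ⟨0, 0, fun h => absurd h he⟩
  choose v u hvu using hdec
  obtain ⟨β, hβ⟩ := infinite_bool hT (fun e => X z (u e))
  have hbase : ∀ e ∈ T, col z e = κ := by
    intro e he
    have := H e he ∅ (by simp) (by simp)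
    simpa using this
  rcases infinite_or hβ (fun e => V (max z (u e)) < v e) with hS | hL
  · -- all exponents pure
    obtain ⟨i, ⟨hiT, hiβ⟩, hiS⟩ := hS.nonempty
    obtain ⟨k, ⟨⟨hkT, hkβ⟩, hkS⟩, hkgt⟩ := infinite_gt hS (i + V (v i) * z ^ (V (v i)))
    obtain ⟨hui, hei⟩ := hvu i (hT1 i hiT)
    obtain ⟨huk, hek⟩ := hvu k (hT1 k hkT)
    have hu0 := ne_zero_of_not_dvd hui
    have huk0 := ne_zero_of_not_dvd huk
    have hvk : V (v i) < v k := by
      by_contra hle
      push Not at hle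
      have h1 : u k ≤ V (v i) := by
        have := lt_V (max z (u k))
        have := le_max_right z (u k)
        omega
      have : k ≤ V (v i) * z ^ (V (v i)) := by
        calc k = u k * z ^ (v k) := hek
          _ ≤ V (v i) * z ^ (V (v i)) :=
            Nat.mul_le_mul h1 (Nat.pow_le_pow_right (by omega) hle)
      omega
    have hE : i * z ^ k = u i * z ^ (v i + k) := by
      conv_lhs => rw [hei]
      rw [pow_add]; ring
    have hpure : Pure z (i * z ^ k) (u i) (v i + k) := ⟨hE, hui, by omega⟩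
    have hpeel : Peel X z (i * z ^ k) (u i * z ^ (v i)) := by
      refine ⟨u i, v i + k, v i, u k, v k, hpure, ?_, huk, ?_, by rw [hiβ, hkβ], rfl⟩
      · rw [mul_comm (z ^ (v k)), ← hek]
      · have : max z (max (v i) (u k)) = max (v i) (max z (u k)) := by
          rw [max_left_comm]
        rw [this]
        exact V_max_lt hvk hkS
    have hVz : V z < i * z ^ k := by
      rw [hE]
      have h1 := lt_mul_pow (g := v i + k) hz2 hu0
      have h2 : V z ≤ V (max z (u i)) := V_mono (le_max_left _ _)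
      omega
    have h1 := hcol _ _ ⟨hz, hVz, Or.inl hpeel⟩
    rw [← hei, hbase i hiT] at h1
    have h2 := H i hiT {k} (by simpa using hkT) (by simp; omega)
    rw [Finset.sum_singleton] at h2
    rw [h2] at h1
    cases κ <;> simp at h1
  · -- no exponent pure
    obtain ⟨i, ⟨hiT, hiβ⟩, hiL⟩ := hL.nonempty
    obtain ⟨hui, hei⟩ := hvu i (hT1 i hiT)
    rw [not_lt] at hiL
    have hu0 := ne_zero_of_not_dvd hui
    set B := V (max z (u i)) with hB
    set M := z ^ (B + 1) with hM
    have hM0 : 0 < M := pow_pos (by omega) _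
    have hBM : B < M := lt_trans (Nat.lt_succ_self B) (Nat.lt_pow_self (by omega))
    obtain ⟨ρ, hρ⟩ := infinite_residue hL i M hM0
    obtain ⟨F', hF', hcard⟩ := hρ.exists_subset_card_eq (M - 1)
    set s0 := v i + ∑ f ∈ F', f with hs0
    set T0 := 4 * s0 + 8 with hT0
    obtain ⟨k, ⟨hkL, hik, hkρ⟩, hkgt⟩ := infinite_gt hρ (B + T0 + T0 * z ^ T0 + ∑ f ∈ F', f)
    obtain ⟨⟨hkT, hkβ⟩, hkL⟩ := hkL
    obtain ⟨huk, hek⟩ := hvu k (hT1 k hkT)
    rw [not_lt] at hkL
    have huk0 := ne_zero_of_not_dvd huk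
    have hkF' : k ∉ F' := by
      intro hmem
      have := Finset.single_le_sum (f := fun f : ℕ => f) (fun _ _ => Nat.zero_le _) hmem
      omega
    set F := insert k F' with hF
    have hsum : ∑ f ∈ F, f = k + ∑ f ∈ F', f := Finset.sum_insert hkF'
    have hsumM : (∑ f ∈ F, f) % M = 0 := by
      have h1 : (∑ f ∈ F, f) ≡ ∑ f ∈ F, ρ [MOD M] := by
        apply Nat.ModEq.sum
        intro f hf
        rw [hF, Finset.mem_insert] at hf
        rcases hf with rfl | hf
        · rw [← hkρ]; exact (Nat.mod_modEq _ _).symm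
        · have := (hF' hf).2.2
          rw [← this]; exact (Nat.mod_modEq _ _).symm
      rw [Finset.sum_const, hF, Finset.card_insert_of_notMem hkF', hcard, smul_eq_mul,
        Nat.sub_add_cancel hM0] at h1
      have h2 : M * ρ ≡ 0 [MOD M] := by simp [Nat.ModEq]
      exact h1.trans h2
    have hFT : (F : Set ℕ) ⊆ T := by
      intro f hf
      rw [Finset.mem_coe, hF, Finset.mem_insert] at hf
      rcases hf with rfl | hf
      · exact hkT
      · exact (hF' hf).1.1.1
    have hFi : ∀ f ∈ F, i < f := by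
      intro f hf
      rw [hF, Finset.mem_insert] at hf
      rcases hf with rfl | hf
      · exact hik
      · exact (hF' hf).2.1
    have h2 := H i hiT F hFT hFi
    set s := ∑ f ∈ F, f with hs
    have hE : i * z ^ s = u i * z ^ (v i + s) := by
      conv_lhs => rw [hei]
      rw [pow_add]; ring
    have hpure : Pure z (i * z ^ s) (u i) (v i + s) := ⟨hE, hui, by omega⟩
    have hVz : V z < i * z ^ s := by
      rw [hE]
      have h1 := lt_mul_pow (g := v i + s) hz2 hu0
      have h2 : V z ≤ V (max z (u i)) := V_mono (le_max_left _ _)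
      omega
    have hnopeel : ∀ E'', ¬ Peel X z (i * z ^ s) E'' := by
      rintro E'' ⟨u', g', a, b, t, hP', hg', hb, ht, hXX, -⟩
      obtain ⟨-, rfl, rfl⟩ := pure_unique hz hz hP' hpure
      have hb0 := ne_zero_of_not_dvd hb
      have hVab := four_V (max z (max a b)) (by omega)
      have ha_le : a ≤ max z (max a b) := le_trans (le_max_left _ _) (le_max_right _ _)
      have hb_le : b ≤ max z (max a b) := le_trans (le_max_right _ _) (le_max_right _ _)
      have hV32 : 32 * max z (max a b) + 4 ≤ V (max z (max a b)) := by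
        unfold V
        have : max z (max a b) ≤ (max z (max a b)) ^ 4 := Nat.le_self_pow (by norm_num) _
        omega
      -- `t` is large
      have htT : T0 < t := by
        by_contra hle
        push Not at hle
        have h1 : z ^ t * b ≤ T0 * z ^ T0 := by
          rw [mul_comm]
          exact Nat.mul_le_mul (by omega) (Nat.pow_le_pow_right (by omega) hle)
        omega
      have hk_eq : (k : ℤ) = ((a : ℤ) - s0) + (z : ℤ) ^ t * b := by
        have : (v i : ℤ) + s = a + (z : ℤ) ^ t * b := by exact_mod_cast hg'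
        have h3 : (s : ℤ) = k + ∑ f ∈ F', (f : ℤ) := by rw [hsum]; push_cast; rfl
        have h4 : (s0 : ℤ) = v i + ∑ f ∈ F', (f : ℤ) := by rw [hs0]; push_cast; rfl
        linarith
      have hzt : t < z ^ t := Nat.lt_pow_self (by omega)
      by_cases has : a = s0
      · -- then `k` would be pure
        rw [has, sub_self, zero_add] at hk_eq
        have h1 : u k * z ^ (v k) = b * z ^ t := by
          rw [← hek]
          have : (k : ℤ) = b * (z : ℤ) ^ t := by rw [hk_eq]; ring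
          exact_mod_cast this
        have h3 := powU hz2 h1 huk hb
        have h4 : V (max z (u k)) ≤ V (max z (max a b)) := by
          apply V_mono
          rw [h3.2]
          exact max_le_max_left _ (le_max_right _ _)
        omega
      · -- near
        have hmaxt : 2 * max a s0 + b + 4 < t := by
          rcases max_choice a s0 with h | h <;> rw [h] <;> omega
        have hnear : Near z (u k) b := near_of hz2 hek hb hk_eq has hmaxt
        have h8 := hX _ _ hnear
        rw [← hXX, hkβ, hiβ] at h8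
        cases β <;> simp at h8
    have hmod : (v i + s) % M = v i := by
      rw [Nat.add_mod, hsumM, add_zero, Nat.mod_mod, Nat.mod_eq_of_lt (by omega)]
    have hred : Red z (i * z ^ s) (u i * z ^ (v i)) := by
      refine ⟨u i, v i + s, hpure, ?_, ?_⟩
      · rw [← hB, ← hM, hmod]; exact hiL
      · rw [← hB, ← hM, hmod]
    have h1 := hcol _ _ ⟨hz, hVz, Or.inr (Or.inl ⟨hnopeel, hred⟩)⟩
    rw [← hei, hbase i hiT, h2] at h1
    cases κ <;> simp at h1

/-! ### Case II: infinitely many bases, and the main theorem -/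

theorem infinite_base {Y : Set ℕ} {rt : ℕ → ℕ} (hY : Y.Infinite)
    (hfin : ∀ z, {y | y ∈ Y ∧ rt y = z}.Finite) (N : ℕ) : ∃ k ∈ Y, N < k ∧ N < rt k := by
  by_contra h
  push Not at h
  apply hY
  have h1 : (⋃ z ∈ Finset.range (N + 1), {y | y ∈ Y ∧ rt y = z}).Finite := by
    apply Set.Finite.biUnion (Finset.finite_toSet _)
    intro z _
    exact hfin z
  refine (h1.union (Set.finite_Iic N)).subset ?_
  intro k hk
  by_cases hkN : N < k
  · left
    simp only [Set.mem_iUnion]
    exact ⟨rt k, Finset.mem_range.mpr (by have := h k hk hkN; omega), hk, rfl⟩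
  · right
    exact not_lt.mp hkN

theorem exists_coloring : ∃ c : ℕ → Bool, ∀ Y : Set ℕ, Y.Infinite → (∀ y ∈ Y, 2 ≤ y) →
    ∀ κ : Bool, ¬ (∀ y ∈ Y, ∀ F : Finset ℕ, (F : Set ℕ) ⊆ Y → (∀ x ∈ F, y < x) →
      c (y ^ (∏ x ∈ F, x)) = κ) := by
  obtain ⟨χ, hχ, -⟩ := exists_col Rel rel_lt rel_unique (fun _ => false)
  have hXex := fun z => exists_col (Near z) (near_lt z) (near_unique z) (fun _ => false)
  choose X hX _ using hXex
  have hcolex := fun z => exists_col (CR χ X z) (cr_lt χ X z) (cr_unique χ X z)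
    (fun E => decide (V z < E))
  choose col hcol1 hcol2 using hcolex
  have hrex : ∀ n : ℕ, ∃ z e, 2 ≤ n → (Prim z ∧ 1 ≤ e ∧ n = z ^ e) := by
    intro n
    by_cases hn : 2 ≤ n
    · obtain ⟨z, e, h⟩ := exists_prim hn
      exact ⟨z, e, fun _ => h⟩
    · exact ⟨0, 0, fun h => absurd h hn⟩
  choose rt ex hre using hrex
  have hpow2 : ∀ z e : ℕ, Prim z → 1 ≤ e → 2 ≤ z ^ e := by
    intro z e hz he
    calc 2 ≤ z := hz.1
      _ = z ^ 1 := (pow_one z).symm
      _ ≤ z ^ e := Nat.pow_le_pow_right (by have := hz.1; omega) he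
  have hc : ∀ z e : ℕ, Prim z → 1 ≤ e → col (rt (z ^ e)) (ex (z ^ e)) = col z e := by
    intro z e hz he
    obtain ⟨h1, h2, h3⟩ := hre (z ^ e) (hpow2 z e hz he)
    obtain ⟨h4, h5⟩ := prim_pow_inj hz h1 he h3
    rw [← h4, ← h5]
  refine ⟨fun n => col (rt n) (ex n), ?_⟩
  intro Y hY hY2 κ H
  beta_reduce at H
  have hprod : ∀ F : Finset ℕ, (F : Set ℕ) ⊆ Y → 1 ≤ ∏ x ∈ F, x := by
    intro F hF
    apply Nat.one_le_iff_ne_zero.mpr
    rw [Finset.prod_ne_zero_iff]
    intro x hx
    have := hY2 x (hF hx)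
    omega
  -- the hypothesis in terms of `col`
  have H' : ∀ y ∈ Y, ∀ F : Finset ℕ, (F : Set ℕ) ⊆ Y → (∀ x ∈ F, y < x) →
      col (rt y) (ex y * ∏ x ∈ F, x) = κ := by
    intro y hy F hF hlt
    obtain ⟨h1, h2, h3⟩ := hre y (hY2 y hy)
    rw [← H y hy F hF hlt]
    have h5 : 1 ≤ ex y * ∏ x ∈ F, x := by
      have := hprod F hF
      nlinarith
    have h4 : y ^ (∏ x ∈ F, x) = (rt y) ^ (ex y * ∏ x ∈ F, x) := by
      conv_lhs => rw [h3]
      rw [← pow_mul]
    rw [h4, hc _ _ h1 h5]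
  have Hbase : ∀ y ∈ Y, col (rt y) (ex y) = κ := by
    intro y hy
    have := H' y hy ∅ (by simp) (by simp)
    simpa using this
  have Hpair : ∀ y ∈ Y, ∀ k ∈ Y, y < k → col (rt y) (ex y * k) = κ := by
    intro y hy k hk hyk
    have := H' y hy {k} (by simpa using hk) (by simpa using hyk)
    simpa using this
  by_cases hcase : ∃ z, {y | y ∈ Y ∧ rt y = z}.Infinite
  · -- Case I
    obtain ⟨z, hz⟩ := hcase
    obtain ⟨y0, hy0Y, hy0z⟩ := hz.nonempty
    have hzp : Prim z := by rw [← hy0z]; exact (hre y0 (hY2 y0 hy0Y)).1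
    have hinj : Function.Injective (fun e : ℕ => z ^ e) := Nat.pow_right_injective hzp.1
    refine caseI (col := col) (X := X) (χ := χ) hzp (hX z) (hcol1 z)
      (T := {e | 1 ≤ e ∧ z ^ e ∈ Y}) ?_ (fun e he => he.1) κ ?_
    · -- infinite
      intro hfin
      apply hz
      refine (hfin.image (fun e => z ^ e)).subset ?_
      rintro y ⟨hyY, hyz⟩
      obtain ⟨h1, h2, h3⟩ := hre y (hY2 y hyY)
      rw [hyz] at h3
      exact ⟨ex y, ⟨h2, by rw [← h3]; exact hyY⟩, h3.symm⟩
    · rintro e ⟨he1, heY⟩ F hF hlt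
      have h1 := H' (z ^ e) heY (F.image (fun e => z ^ e)) ?_ ?_
      · rw [Finset.prod_image (fun a _ b _ h => hinj h), Finset.prod_pow_eq_pow_sum] at h1
        obtain ⟨h2, h3, h4⟩ := hre (z ^ e) (hpow2 z e hzp he1)
        obtain ⟨h5, h6⟩ := prim_pow_inj hzp h2 he1 h4
        rw [← h5, ← h6] at h1
        exact h1
      · intro x hx
        rw [Finset.mem_coe, Finset.mem_image] at hx
        obtain ⟨f, hf, rfl⟩ := hx
        exact (hF hf).2
      · intro x hx
        rw [Finset.mem_image] at hx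
        obtain ⟨f, hf, rfl⟩ := hx
        exact Nat.pow_lt_pow_right (by have := hzp.1; omega) (hlt f hf)
  · -- Case II
    push Not at hcase
    obtain ⟨β, hβ⟩ := infinite_bool hY (fun y => χ (rt y))
    rcases infinite_or hβ (fun y => V (rt y) < ex y) with hS | hL
    · -- all exponents large
      have hfin : ∀ z, {y | y ∈ {y | y ∈ {y | y ∈ Y ∧ χ (rt y) = β} ∧ V (rt y) < ex y} ∧
          rt y = z}.Finite := fun z => (hcase z).subset (fun y hy => ⟨hy.1.1.1, hy.2⟩)
      obtain ⟨i, ⟨hiY, hiβ⟩, hiS⟩ := hS.nonempty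
      obtain ⟨k, ⟨⟨hkY, hkβ⟩, hkS⟩, hk1, hk2⟩ := infinite_base hS hfin (i + rt i + ex i)
      obtain ⟨pi, ei, hi⟩ := hre i (hY2 i hiY)
      obtain ⟨pk, ek, hk⟩ := hre k (hY2 k hkY)
      have hnd : ¬ rt k ∣ ex i := fun hd => by
        have := Nat.le_of_dvd (by omega) hd
        omega
      have hpure : Pure (rt k) (ex i * k) (ex i) (ex k) := by
        refine ⟨by conv_lhs => rw [hk], hnd, ?_⟩
        rw [max_eq_left (by omega)]
        exact hkS
      have hne : rt k ≠ rt i := by omega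
      have hVz : V (rt i) < ex i * k := by
        have := hY2 k hkY
        nlinarith
      have hnopeel : ∀ E'', ¬ Peel X (rt i) (ex i * k) E'' := by
        rintro E'' ⟨u, g, a, b, t, hP, -⟩
        exact hne (pure_unique pk pi hpure hP).1
      have hnored : ∀ E'', ¬ Red (rt i) (ex i * k) E'' := by
        rintro E'' ⟨u, g, hP, -⟩
        exact hne (pure_unique pk pi hpure hP).1
      have hoth : Oth χ (rt i) (ex i * k) (ex i) :=
        ⟨rt k, ex k, pk, hne, by rw [hiβ, hkβ], hpure⟩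
      have h1 := hcol1 (rt i) _ _ ⟨pi, hVz, Or.inr (Or.inr ⟨hnopeel, hnored, hoth⟩)⟩
      rw [Hpair i hiY k hkY (by omega), Hbase i hiY] at h1
      cases κ <;> simp at h1
    · -- all exponents small
      have hfin : ∀ z, {y | y ∈ {y | y ∈ {y | y ∈ Y ∧ χ (rt y) = β} ∧ ¬ V (rt y) < ex y} ∧
          rt y = z}.Finite := fun z => (hcase z).subset (fun y hy => ⟨hy.1.1.1, hy.2⟩)
      obtain ⟨i, ⟨hiY, hiβ⟩, hiL⟩ := hL.nonempty
      obtain ⟨k, ⟨⟨hkY, hkβ⟩, hkL⟩, hk1, hk2⟩ :=
        infinite_base hL hfin (i + V (rt i) + (ex i) ^ (1 + 24 * (ex i) ^ 4))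
      obtain ⟨pi, ei, hi⟩ := hre i (hY2 i hiY)
      obtain ⟨pk, ek, hk⟩ := hre k (hY2 k hkY)
      have hexi : ex i ≤ (ex i) ^ (1 + 24 * (ex i) ^ 4) := Nat.le_self_pow (by omega) _
      -- `κ = false`
      have hκ : κ = false := by
        have h1 := hcol2 (rt i) (ex i) (fun b hb => hiL hb.2.1)
        rw [Hbase i hiY] at h1
        rw [h1]
        exact decide_eq_false hiL
      -- but the pair has colour `true`
      have hVz : V (rt i) < ex i * k := by
        have : 1 * k ≤ ex i * k := Nat.mul_le_mul_right _ ei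
        omega
      have hkey : ∀ w u g : ℕ, Prim w → χ w = χ (rt i) → ¬ Pure w (ex i * k) u g := by
        intro w u g hw hχw hP
        by_cases hwk : w = rt k
        · subst hwk
          obtain ⟨h1, h2, h3⟩ := hP
          have hnd : ¬ rt k ∣ ex i := fun hd => by
            have := Nat.le_of_dvd (by omega) hd
            omega
          have h4 : ex i * (rt k) ^ (ex k) = u * (rt k) ^ g := by
            rw [← hk]; exact h1
          have h5 := powU pk.1 h4 hnd h2
          apply hkL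
          have : V (rt k) ≤ V (max (rt k) u) := V_mono (le_max_left _ _)
          omega
        · have hrel : Rel (rt k) w := by
            refine ⟨pk, hw, hwk, ex i, ex k, u, g, ei, ek, by omega, ?_⟩
            rw [← hk]
            exact hP
          have := hχ _ _ hrel
          rw [hχw, hiβ, hkβ] at this
          cases β <;> simp at this
      have h1 := hcol2 (rt i) (ex i * k) (by
        rintro E'' ⟨-, -, h | ⟨-, h⟩ | ⟨-, -, h⟩⟩
        · obtain ⟨u, g, a, b, t, hP, -⟩ := h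
          exact hkey _ _ _ pi rfl hP
        · obtain ⟨u, g, hP, -⟩ := h
          exact hkey _ _ _ pi rfl hP
        · obtain ⟨w, g, hw, -, hχw, hP⟩ := h
          exact hkey _ _ _ hw hχw hP)
      rw [Hpair i hiY k hkY (by omega), hκ] at h1
      simp [hVz] at h1

/-! ### The sets `FE^I` -/

/-- `FE^I_n(X)` for `X = {x 0 < x 1 < ...}`. -/
def FEI (x : ℕ → ℕ) : ℕ → Set ℕ
  | 0 => {x 0}
  | n + 1 => {z | ∃ y ∈ FEI x n, z = y ^ x (n + 1)} ∪ FEI x n ∪ {x (n + 1)}

/-- `C` is an exponential IP set of type I. -/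
def IsExpIPI (C : Set ℕ) : Prop :=
  ∃ x : ℕ → ℕ, StrictMono x ∧ ∀ n, FEI x n ⊆ C

theorem mem_FEI (x : ℕ → ℕ) (n : ℕ) : ∀ (i : ℕ) (G : Finset ℕ), i ≤ n →
    (∀ j ∈ G, i < j ∧ j ≤ n) → x i ^ (∏ j ∈ G, x j) ∈ FEI x n := by
  induction n with
  | zero =>
    intro i G hi hG
    have hi0 : i = 0 := by omega
    have hG0 : G = ∅ := by
      apply Finset.eq_empty_of_forall_notMem
      intro j hj
      have := hG j hj
      omega
    subst hi0 hG0
    simp [FEI]
  | succ n ih =>
    intro i G hi hG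
    by_cases hmem : n + 1 ∈ G
    · left; left
      refine ⟨x i ^ (∏ j ∈ G.erase (n + 1), x j), ih i _ ?_ ?_, ?_⟩
      · have := (hG _ hmem).1; omega
      · intro j hj
        rw [Finset.mem_erase] at hj
        have := hG j hj.2
        omega
      · rw [← pow_mul, Finset.prod_erase_mul _ _ hmem]
    · by_cases hin : i = n + 1
      · right
        have hG0 : G = ∅ := by
          apply Finset.eq_empty_of_forall_notMem
          intro j hj
          have := hG j hj
          omega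
        rw [hG0, hin]
        simp
      · left; right
        apply ih i G (by omega)
        intro j hj
        have h1 := hG j hj
        have : j ≠ n + 1 := fun h => hmem (h ▸ hj)
        omega

theorem main : ∃ c : ℕ → Bool, ∀ κ, ¬ IsExpIPI {n | c n = κ} := by
  obtain ⟨c, hc⟩ := exists_coloring
  refine ⟨c, ?_⟩
  rintro κ ⟨x, hx, hsub⟩
  have hge : ∀ j, j ≤ x j := fun j => hx.id_le j
  refine hc (x '' {j | 2 ≤ j}) ?_ ?_ κ ?_
  · apply Set.Infinite.image (hx.injective.injOn)
    exact Set.infinite_of_not_bddAbove (by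
      rintro ⟨b, hb⟩
      have := hb (show b + 2 ∈ {j | 2 ≤ j} by simp)
      omega)
  · rintro y ⟨j, hj, rfl⟩
    exact le_trans hj (hge j)
  · rintro y ⟨i, hi, rfl⟩ F hF hlt
    obtain ⟨G, hG, rfl⟩ := Finset.subset_set_image_iff.mp hF
    have hinj : Set.InjOn x (G : Set ℕ) := hx.injective.injOn
    rw [Finset.prod_image hinj]
    have hGlt : ∀ j ∈ G, i < j := by
      intro j hj
      exact hx.lt_iff_lt.mp (hlt (x j) (Finset.mem_image_of_mem _ hj))
    have := hsub (i + ∑ j ∈ G, j) (mem_FEI x (i + ∑ j ∈ G, j) i G (by omega) (by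
      intro j hj
      refine ⟨hGlt j hj, ?_⟩
      have := Finset.single_le_sum (f := fun f : ℕ => f) (fun _ _ => Nat.zero_le _) hj
      omega))
    exact this

end Pool.Agent.H225.ExpOne
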